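import Pool.Agent.KWh.TrP

set_option autoImplicit false

/-!
PACKAGE KWh-TRC. Trees give words.
-/

namespace KWh

variable {n : ℕ} [NeZero n] {S : Finset (Fin n × Bool)}

/-- the rim vertex of a number -/
private def ix (n : ℕ) [NeZero n] (i : ℕ) : Fin n := ⟨i % n, Nat.mod_lt _ (Nat.pos_of_neZero n)⟩

private theorem ix_self (i : Fin n) : ix n i.val = i := by
  apply Fin.ext
  exact Nat.mod_eq_of_lt i.2

private theorem ix_succ (hn : 3 ≤ n) (i : ℕ) : ix n (i + 1) = ix n i + 1 := by
  apply Fin.ext
  rw [val_succ hn]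
  unfold ix
  have h1 : i % n < n := Nat.mod_lt _ (by omega)
  split_ifs with h
  · show (i + 1) % n = 0
    rw [Nat.add_mod]
    rw [Nat.mod_eq_of_lt (show 1 < n by omega)]
    have h' : i % n + 1 = n := h
    rw [h', Nat.mod_self]
  · show (i + 1) % n = i % n + 1
    have h' : i % n + 1 ≠ n := h
    rw [Nat.add_mod, Nat.mod_eq_of_lt (show 1 < n by omega)]
    exact Nat.mod_eq_of_lt (by omega)

private theorem succ_ne (hn : 3 ≤ n) (i : Fin n) : i + 1 + 1 ≠ i := by
  intro h
  have h1 := congrArg Fin.val h
  rw [val_succ hn, val_succ hn] at h1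
  have h2 := i.2
  split_ifs at h1 <;> omega

/-- PROOF. `p`, `d` from `exists_parent`.  Let `T` be the set of the cells `2 i` (`i ≤ n`) with
`p i = i - 1` (`p 0 = n - 1` for `i = 0` and `i = n`) and of the cells `2 i + 1` (`i < n`) with
`p i ≠ some (i + 1)`.
`up`: `p i = i - 1` is not `i + 1` (`n ≥ 3`).  `down`: `p (i + 1) = i` implies `p i ≠ i + 1`
(distances).  `val (i, true) = 1` iff `p i` is neither `i - 1` nor `i + 1` iff `p i = none` iff the
spoke `i` is in `S` (`adj_rim`, `adj_hub`; the hub has no parent).  `val (i, false) = 0` iff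
`p i ≠ i + 1` and `p (i + 1) ≠ i` iff the rim edge `i` is not in `S`.  A rim vertex of minimal `d`
has the parent `none`; there `2 i ∉ T` and `2 i + 1 ∈ T`. -/
theorem word_of_tree (hn : 3 ≤ n) (h : (gr n S).IsTree) : ∃ T, IsWord n T ∧ bs n T = S := by
  obtain ⟨p, d, hadj, hd, hedge⟩ := exists_parent hn h
  set T : Finset ℕ := (Finset.range (2 * n + 1)).filter fun u =>
    (Even u → p (ix n (u / 2)) = some (ix n (u / 2) - 1)) ∧
      (¬ Even u → p (ix n (u / 2)) ≠ some (ix n (u / 2) + 1)) with hT
  have hev : ∀ i ≤ n, 2 * i ∈ T ↔ p (ix n i) = some (ix n i - 1) := by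
    intro i hi
    rw [hT, Finset.mem_filter, Finset.mem_range]
    have h1 : 2 * i / 2 = i := by omega
    have h2 : Even (2 * i) := even_two_mul i
    rw [h1]
    constructor
    · rintro ⟨-, h3, -⟩
      exact h3 h2
    · intro h3
      exact ⟨by omega, fun _ => h3, fun h4 => absurd h2 h4⟩
  have hod : ∀ i < n, 2 * i + 1 ∈ T ↔ p (ix n i) ≠ some (ix n i + 1) := by
    intro i hi
    rw [hT, Finset.mem_filter, Finset.mem_range]
    have h1 : (2 * i + 1) / 2 = i := by omega
    have h2 : ¬ Even (2 * i + 1) := by
      rw [Nat.not_even_iff_odd]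
      exact odd_two_mul_add_one i
    rw [h1]
    constructor
    · rintro ⟨-, -, h3⟩
      exact h3 h2
    · intro h3
      exact ⟨by omega, fun h4 => absurd h4 h2, fun _ => h3⟩
  have hno : ∀ i j, p i = some j → p j ≠ some i := by
    intro i j h1 h2
    have h3 := hd i
    have h4 := hd j
    rw [h1] at h3
    rw [h2] at h4
    omega
  have hev' : ∀ i < n, 2 * (i + 1) ∈ T ↔ p (ix n i + 1) = some (ix n i) := by
    intro i hi
    rw [hev (i + 1) hi, ix_succ hn, add_sub_cancel_right]
  have hpre : IsPre n T := by
    refine ⟨?_, ?_, ?_, ?_⟩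
    · intro u hu
      rw [hT, Finset.mem_filter, Finset.mem_range] at hu
      omega
    · have h1 := hev 0 (Nat.zero_le n)
      have h2 := hev n le_rfl
      have h3 : ix n n = ix n 0 := by
        apply Fin.ext
        show n % n = 0 % n
        rw [Nat.mod_self, Nat.zero_mod]
      rw [mul_zero] at h1
      rw [h1, h2, h3]
    · intro t ht he h1
      obtain ⟨i, hi⟩ := he
      have hi' : t = 2 * i := by omega
      subst hi'
      rw [hod i (by omega)]
      rw [hev i (by omega)] at h1
      rw [h1]
      intro h2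
      have h3 := Option.some_injective _ h2
      have h4 : ix n i = ix n i + 1 + 1 := by
        rw [← h3, sub_add_cancel]
      exact succ_ne hn _ h4.symm
    · intro t ht ho h1
      obtain ⟨i, hi⟩ := ho
      subst hi
      have h2 : 2 * i + 1 + 1 = 2 * (i + 1) := by ring
      rw [h2, hev' i (by omega)] at h1
      rw [hod i (by omega)]
      exact hno _ _ h1
  obtain ⟨i0, hi0⟩ : ∃ i, p i = none := by
    obtain ⟨i, -, hi⟩ := Finset.exists_min_image (Finset.univ : Finset (Fin n))
      (fun i => d (some i)) ⟨0, Finset.mem_univ _⟩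
    refine ⟨i, ?_⟩
    rcases h1 : p i with _ | j
    · rfl
    · have h2 := hd i
      rw [h1] at h2
      have h3 := hi j (Finset.mem_univ j)
      omega
  refine ⟨T, ⟨hpre, ⟨2 * i0.val + 1, by omega, ?_⟩, ⟨2 * i0.val, by omega, ?_⟩⟩, ?_⟩
  · rw [hod _ i0.2, ix_self, hi0]
    exact nofun
  · rw [hev _ i0.2.le, ix_self, hi0]
    exact nofun
  · ext ⟨i, b⟩
    rw [bs, Finset.mem_filter]
    have he := hev i.val i.2.le
    have ho := hod i.val i.2
    have he' := hev' i.val i.2
    rw [ix_self] at he ho he'
    rcases b with _ | _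
    · have h0 : val n T (i, false) = 1 ↔ (2 * i.val + 1 ∉ T ∨ 2 * (i.val + 1) ∈ T) := by
        unfold val
        have h2 : 2 * i.val + 2 = 2 * (i.val + 1) := by ring
        simp only [h2]
        by_cases ha : 2 * i.val + 1 ∈ T <;> by_cases hb : 2 * (i.val + 1) ∈ T <;>
          simp [ha, hb]
      rw [h0, ho, he', not_not]
      constructor
      · rintro ⟨-, h1 | h1⟩
        · have h2 := hadj i
          rw [h1, adj_rim hn] at h2
          rcases h2 with h2 | h2
          · exact h2.2
          · exact absurd h2.1.symm (succ_ne hn i)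
        · have h2 := hadj (i + 1)
          rw [h1, adj_rim hn] at h2
          rcases h2 with h2 | h2
          · exact absurd h2.1.symm (succ_ne hn i)
          · exact h2.2
      · intro h1
        refine ⟨Finset.mem_univ _, ?_⟩
        have h2 : (gr n S).Adj (some i) (some (i + 1)) := (adj_rim hn).2 (Or.inl ⟨rfl, h1⟩)
        rcases hedge _ _ h2 with ⟨j, h3, h4⟩ | ⟨j, h3, h4⟩
        · have h5 := Option.some_injective _ h3
          left
          rw [h5]
          rw [h5] at h4
          exact h4.symm
        · have h5 := Option.some_injective _ h3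
          right
          rw [h5]
          exact h4.symm
    · have h0 : val n T (i, true) = 1 ↔ (2 * i.val ∉ T ∧ 2 * i.val + 1 ∈ T) := by
        unfold val
        by_cases ha : 2 * i.val + 1 ∈ T <;> by_cases hb : 2 * i.val ∈ T <;>
          simp [ha, hb]
      rw [h0, ho, he]
      constructor
      · rintro ⟨-, h1, h2⟩
        have h3 := hadj i
        rcases h4 : p i with _ | j
        · rw [h4] at h3
          exact (adj_hub hn).1 h3.symm
        · rw [h4, adj_rim hn] at h3
          rcases h3 with h3 | h3
          · exact absurd (by rw [h4, h3.1]) h2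
          · exact absurd (by rw [h4, h3.1, add_sub_cancel_right]) h1
      · intro h1
        refine ⟨Finset.mem_univ _, ?_⟩
        have h2 : (gr n S).Adj none (some i) := (adj_hub hn).2 h1
        rcases hedge _ _ h2 with ⟨j, h3, h4⟩ | ⟨j, h3, h4⟩
        · exact absurd h3 (by simp)
        · have h5 := Option.some_injective _ h3
          rw [← h5] at h4
          rw [← h4]
          exact ⟨nofun, nofun⟩

end KWh
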