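import Pool.Agent.KWh.TrB
import Pool.Agent.KWh.TrC
import Pool.Agent.KSum.TwoDef

set_option autoImplicit false

/-! The base rings of the cycle matroids of the wheels are Koszul. -/

namespace KWh

open KSum KSpM

/-- `M` is the cycle matroid of a wheel with `n ≥ 3` spokes, with the edges named by `f`. -/
def IsWheel {α : Type*} (M : Matroid α) : Prop :=
  ∃ (n : ℕ) (_ : NeZero n) (f : Fin n × Bool ↪ α), 3 ≤ n ∧ M.E = Set.range f ∧
    ∀ B : Finset α, M.IsBase (B : Set α) ↔
      ∃ S : Finset (Fin n × Bool), (gr n S).IsTree ∧ B = S.map f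

theorem wheel_koszul {α : Type*} [Fintype α] {M : Matroid α} (h : IsWheel M) (K : Type*)
    [Field K] : IsKoszul K M := by
  obtain ⟨n, _, f, hn, _, hB⟩ := h
  have h1 : {B : Finset α | M.IsBase (B : Set α)} = fam n f := by
    ext B
    rw [Set.mem_setOf_eq, hB]
    constructor
    · rintro ⟨S, hS, rfl⟩
      obtain ⟨T, hT, rfl⟩ := word_of_tree hn hS
      exact ⟨T, hT, rfl⟩
    · rintro ⟨T, hT, rfl⟩
      exact ⟨bs n T, tree_of_word hn hT, rfl⟩
  unfold IsKoszul
  rw [h1]
  exact lin_fam K (by omega) f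

end KWh
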