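import Pool.Agent.KWh.Defs

set_option autoImplicit false

/-!
PACKAGE KWh-AGR. The next cell where two words agree.
-/

namespace KWh

variable {n : ℕ} {A B : Finset ℕ}

/-- PROOF. If not all cells `u ≥ t` are as in the second alternative let `v` be the least cell `> t`
with `¬ (v ∈ B ∧ v ∉ A)` (`Nat.find`). The cell `v - 1` is in `B` and not in `A`. If `v - 1` is
even: `v ∈ B` (`hB.up`), so `v ∈ A`. If `v - 1` is odd: `v ∉ A` (`hA.down`), so `v ∉ B`. -/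
theorem right_agree (hA : IsPre n A) (hB : IsPre n B) {t : ℕ} (ht : t ≤ 2 * n) (h1 : t ∈ B)
    (h2 : t ∉ A) : (∃ v, t < v ∧ v ≤ 2 * n ∧ (v ∈ A ↔ v ∈ B) ∧ ∀ u, t ≤ u → u < v → u ∈ B ∧ u ∉ A) ∨
      ∀ u, t ≤ u → u ≤ 2 * n → u ∈ B ∧ u ∉ A := by
  classical
  by_cases hall : ∀ u, t ≤ u → u ≤ 2 * n → u ∈ B ∧ u ∉ A
  · exact Or.inr hall
  · left
    have hex : ∃ v, t < v ∧ v ≤ 2 * n ∧ ¬ (v ∈ B ∧ v ∉ A) := by
      by_contra hno
      apply hall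
      intro u hu hu2
      by_contra hbad
      rcases Nat.eq_or_lt_of_le hu with h | h
      · subst h
        exact hbad ⟨h1, h2⟩
      · exact hno ⟨u, h, hu2, hbad⟩
    obtain ⟨hv1, hv2, hv3⟩ := Nat.find_spec hex
    have hmin : ∀ u, t ≤ u → u < Nat.find hex → u ∈ B ∧ u ∉ A := by
      intro u hu hu2
      rcases Nat.eq_or_lt_of_le hu with h | h
      · subst h
        exact ⟨h1, h2⟩
      · by_contra hbad
        exact Nat.find_min hex hu2 ⟨h, by omega, hbad⟩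
    generalize Nat.find hex = v at hv1 hv2 hv3 hmin
    refine ⟨v, hv1, hv2, ?_, hmin⟩
    obtain ⟨w, rfl⟩ : ∃ w, v = w + 1 := ⟨v - 1, by omega⟩
    obtain ⟨hwB, hwA⟩ := hmin w (by omega) (by omega)
    rcases Nat.even_or_odd w with he | ho
    · have h3 : w + 1 ∈ B := hB.up w (by omega) he hwB
      have h4 : w + 1 ∈ A := by
        by_contra h5
        exact hv3 ⟨h3, h5⟩
      exact ⟨fun _ => h3, fun _ => h4⟩
    · have h3 : w + 1 ∉ A := fun h5 => hwA (hA.down w (by omega) ho h5)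
      have h4 : w + 1 ∉ B := fun h5 => hv3 ⟨h5, h3⟩
      exact ⟨fun h5 => absurd h5 h3, fun h5 => absurd h5 h4⟩

/-- PROOF. Let `u` be the least cell `≤ t` such that all `x ∈ [u, t]` satisfy `x ∈ A ∧ x ∉ B`;
`u ≥ 1` because `0 ∈ B`; the cell `u - 1` is not of this kind. If `u - 1` is even: `u ∉ B` gives
`u - 1 ∉ B` (`hB.up`), so `u - 1 ∉ A`. If `u - 1` is odd: `u ∈ A` gives `u - 1 ∈ A` (`hA.down`), so
`u - 1 ∈ B`. -/
theorem left_agree (hA : IsPre n A) (hB : IsPre n B) {t : ℕ} (ht : t ≤ 2 * n) (h1 : t ∈ A)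
    (h2 : t ∉ B) (h0 : 0 ∈ B) : ∃ u, 1 ≤ u ∧ u ≤ t ∧ (u - 1 ∈ A ↔ u - 1 ∈ B) ∧
      ∀ x, u ≤ x → x ≤ t → x ∈ A ∧ x ∉ B := by
  classical
  have hex : ∃ u, u ≤ t ∧ ∀ x, u ≤ x → x ≤ t → x ∈ A ∧ x ∉ B := by
    refine ⟨t, le_refl t, fun x hx hx2 => ?_⟩
    have hxt : x = t := by omega
    subst hxt
    exact ⟨h1, h2⟩
  obtain ⟨hu1, hu2⟩ := Nat.find_spec hex
  have hmin : ∀ w, w < Nat.find hex → ¬ (w ≤ t ∧ ∀ x, w ≤ x → x ≤ t → x ∈ A ∧ x ∉ B) :=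
    fun w hw => Nat.find_min hex hw
  generalize Nat.find hex = u at hu1 hu2 hmin
  have hu0 : u ≠ 0 := by
    rintro rfl
    exact (hu2 0 (le_refl 0) (Nat.zero_le t)).2 h0
  obtain ⟨w, rfl⟩ : ∃ w, u = w + 1 := ⟨u - 1, by omega⟩
  refine ⟨w + 1, by omega, hu1, ?_, hu2⟩
  rw [Nat.add_sub_cancel]
  obtain ⟨hA1, hB1⟩ := hu2 (w + 1) (le_refl _) hu1
  have hw : ¬ (w ∈ A ∧ w ∉ B) := by
    intro hbad
    refine hmin w (by omega) ⟨by omega, fun x hx hx2 => ?_⟩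
    rcases Nat.eq_or_lt_of_le hx with h | h
    · subst h
      exact hbad
    · exact hu2 x h hx2
  rcases Nat.even_or_odd w with he | ho
  · have h3 : w ∉ B := fun h5 => hB1 (hB.up w (by omega) he h5)
    have h4 : w ∉ A := fun h5 => hw ⟨h5, h3⟩
    exact ⟨fun h5 => absurd h5 h4, fun h5 => absurd h5 h3⟩
  · have h3 : w ∈ A := hA.down w (by omega) ho hA1
    have h4 : w ∈ B := by
      by_contra h5
      exact hw ⟨h3, h5⟩
    exact ⟨fun _ => h4, fun _ => h3⟩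

end KWh
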