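import Pool.Agent.KWh.Main
import Pool.Agent.KSum.Two

set_option autoImplicit false

/-! The matroids built by 2-sums from wheels and matroids with Koszul base ring. -/

namespace KWh

open KSum

/-- The smallest class of matroids on `α` which contains the cycle matroids of wheels and all
matroids with Koszul base ring over `K` and is closed under 2-sums. -/
inductive Built (K : Type*) [Field K] {α : Type*} [Fintype α] : Matroid α → Prop
  | wheel (M : Matroid α) : IsWheel M → Built K M
  | koszul (M : Matroid α) : IsKoszul K M → Built K M
  | two (M M₁ M₂ : Matroid α) (p : α) :
      IsTwoSum M M₁ M₂ p → Built K M₁ → Built K M₂ → Built K M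

theorem built_koszul (K : Type*) [Field K] {α : Type*} [Fintype α] {M : Matroid α}
    (h : Built K M) : IsKoszul K M := by
  induction h with
  | wheel M h => exact wheel_koszul h K
  | koszul M h => exact h
  | two M M₁ M₂ p h _ _ h₁ h₂ => exact two_koszul h K h₁ h₂

end KWh
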