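import Pool.Agent.KWh.Fam

set_option autoImplicit false

/-!
PACKAGE KWh-CNT. The exponent vector determines the number of members and, up to a constant, the
numbers `SS`.
-/

namespace KWh

variable {n : ℕ} {s s' : Multiset (Finset ℕ)}

private theorem ss_cons (T : Finset ℕ) (s : Multiset (Finset ℕ)) (u : ℕ) :
    (SS (T ::ₘ s) u : ℤ) = (if u ∈ T then 1 else 0) + SS s u := by
  unfold SS
  rw [Multiset.countP_cons]
  split_ifs with h
  · push_cast; ring
  · push_cast; ring

/-- PROOF. `(i, true)`: for a word `val n T (i, true) = [2 i + 1 ∈ T] - [2 i ∈ T]` (`IsPre.up`). -/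
theorem ss_even (hs : ∀ T ∈ s, IsWord n T) (i : Fin n) :
    (SS s (2 * i.val + 1) : ℤ) = SS s (2 * i.val) + (s.map fun T => val n T (i, true)).sum := by
  induction s using Multiset.induction with
  | empty => simp [SS]
  | cons T s ih =>
    rw [ss_cons, ss_cons, Multiset.map_cons, Multiset.sum_cons,
      ih fun T hT => hs T (Multiset.mem_cons_of_mem hT)]
    have h1 := (hs T (Multiset.mem_cons_self T s)).up (2 * i.val) (by omega) ⟨i.val, by ring⟩
    have h2 : ((if 2 * i.val + 1 ∈ T then 1 else 0 : ℤ)) =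
        (if 2 * i.val ∈ T then 1 else 0) + val n T (i, true) := by
      unfold val
      by_cases h3 : 2 * i.val ∈ T
      · simp [h3, h1 h3]
      · by_cases h4 : 2 * i.val + 1 ∈ T <;> simp [h3, h4]
    rw [h2]; ring

/-- PROOF. For a word `val n T (i, false) = 1 + [2 i + 2 ∈ T] - [2 i + 1 ∈ T]` (`IsPre.down`). -/
theorem ss_odd (hs : ∀ T ∈ s, IsWord n T) (i : Fin n) :
    (SS s (2 * i.val + 2) : ℤ) + s.card =
      SS s (2 * i.val + 1) + (s.map fun T => val n T (i, false)).sum := by
  induction s using Multiset.induction with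
  | empty => simp [SS]
  | cons T s ih =>
    rw [ss_cons, ss_cons, Multiset.map_cons, Multiset.sum_cons, Multiset.card_cons]
    have ih' := ih fun T hT => hs T (Multiset.mem_cons_of_mem hT)
    have h1 := (hs T (Multiset.mem_cons_self T s)).down (2 * i.val + 1) (by omega)
      ⟨i.val, rfl⟩
    have h2 : ((if 2 * i.val + 2 ∈ T then 1 else 0 : ℤ)) + 1 =
        (if 2 * i.val + 1 ∈ T then 1 else 0) + val n T (i, false) := by
      unfold val
      by_cases h3 : 2 * i.val + 2 ∈ T
      · have h4 : 2 * i.val + 1 ∈ T := h1 h3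
        simp [h3, h4]
      · by_cases h4 : 2 * i.val + 1 ∈ T <;> simp [h3, h4]
    push_cast
    linarith

/-- PROOF. Induction on `u` with `ss_even` and `ss_odd`. -/
theorem ss_const (hs : ∀ T ∈ s, IsWord n T) (hs' : ∀ T ∈ s', IsWord n T) (h : Same n s s')
    (hc : s.card = s'.card) {u : ℕ} (hu : u ≤ 2 * n) :
    (SS s u : ℤ) - SS s' u = SS s 0 - SS s' 0 := by
  induction u with
  | zero => rfl
  | succ u ih =>
    have ih' := ih (by omega)
    rcases Nat.even_or_odd u with ⟨k, hk⟩ | ⟨k, hk⟩
    · obtain rfl : u = 2 * k := by omega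
      have h1 := ss_even hs ⟨k, by omega⟩
      have h2 := ss_even hs' ⟨k, by omega⟩
      have h3 := h (⟨k, by omega⟩, true)
      simp only at h1 h2 h3
      linarith
    · obtain rfl : u = 2 * k + 1 := by omega
      have h1 := ss_odd hs ⟨k, by omega⟩
      have h2 := ss_odd hs' ⟨k, by omega⟩
      have h3 := h (⟨k, by omega⟩, false)
      have hc' : (s.card : ℤ) = s'.card := by exact_mod_cast hc
      simp only at h1 h2 h3
      linarith

end KWh
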