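import Pool.Agent.KWh.Fam

set_option autoImplicit false

/-!
PACKAGE KWh-HEL. The Helly argument.
-/

namespace KWh

variable {n : ℕ} {s : Multiset (Finset ℕ)}

/-- PROOF. Call `T ∈ s` bad if not `0 < ty n T ≤ a`.  A bad `T` misses some cell `x`, `a ≤ x ≤ 2 n`
(`x = 2 n` if `ty n T = 0`, `x = ty n T - 1` otherwise, `ty_spec`); let `m T` be the least one
(`Nat.find`).  If there is no bad `T` take `u = a`.  Otherwise let `T0 ∈ s` be bad with `m T0`
maximal (`s.toFinset`, `Finset.exists_max_image`); take `u = m T0`.  Suppose `T ∈ s` is bad and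
`u ∈ T`.  Then `m T < u` (`m T ≤ u`, `m T ∉ T`), so `a < u`; `t = u - 1 ≥ a` is in `T0`, so `t` is odd
(`IsPre.up`); `t + 1 ∈ T`.  Look at the second part of `Ok n T0 T` at `t`.
If `0 < ty n T ≤ t`: `ty n T - 1 ∉ T0`; but `a ≤ ty n T - 1 < u` (`T` bad), so it is in `T0`.
Otherwise `key n T0 t ≤ key n T t`.  Let `v` be the last cell `≤ t` missing in `T` (`m T` is one, so
`v ≥ m T ≥ a`); `v ∈ T0`, and the cells in `(v, t]` are in both; `key_lt_of` gives a contradiction. -/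
theorem helly (hs : Fam n s) {a : ℕ} (ha : a ≤ 2 * n) :
    ∃ u, a ≤ u ∧ u ≤ 2 * n ∧ ∀ T ∈ s, u ∈ T → 0 < ty n T ∧ ty n T ≤ a := by
  classical
  have hex : ∀ T ∈ s, ¬ (0 < ty n T ∧ ty n T ≤ a) → ∃ x, a ≤ x ∧ x ≤ 2 * n ∧ x ∉ T := by
    intro T hT hb
    rcases Nat.eq_zero_or_pos (ty n T) with h0 | h0
    · exact ⟨2 * n, ha, le_rfl, fun h1 => absurd (ty_pos h1) (by omega)⟩
    · obtain ⟨t, -, ht, hty, htT, -⟩ := ty_spec (hs.1 T hT) h0
      have h1 : a < ty n T := by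
        by_contra h2
        exact hb ⟨h0, by omega⟩
      exact ⟨t, by omega, by omega, htT⟩
  set m : Finset ℕ → ℕ := fun T =>
    if h : ∃ x, a ≤ x ∧ x ≤ 2 * n ∧ x ∉ T then Nat.find h else 0 with hm
  have hm1 : ∀ T, (∃ x, a ≤ x ∧ x ≤ 2 * n ∧ x ∉ T) → (a ≤ m T ∧ m T ≤ 2 * n ∧ m T ∉ T) ∧
      ∀ x, a ≤ x → x < m T → x ∈ T := by
    intro T hT
    have e : m T = Nat.find hT := by rw [hm]; exact dif_pos hT
    refine ⟨by rw [e]; exact Nat.find_spec hT, fun x hx hx' => ?_⟩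
    by_contra h1
    rw [e] at hx'
    have h3 := Nat.find_spec hT
    exact Nat.find_min hT hx' ⟨hx, by omega, h1⟩
  by_cases hB : ∃ T ∈ s, ¬ (0 < ty n T ∧ ty n T ≤ a)
  · obtain ⟨T1, hT1, hb1⟩ := hB
    obtain ⟨T0, hT0, hmax⟩ := Finset.exists_max_image
      (s.toFinset.filter fun T => ¬ (0 < ty n T ∧ ty n T ≤ a)) m
      ⟨T1, Finset.mem_filter.2 ⟨Multiset.mem_toFinset.2 hT1, hb1⟩⟩
    rw [Finset.mem_filter, Multiset.mem_toFinset] at hT0
    obtain ⟨⟨ha0, hn0, hu0⟩, hmin0⟩ := hm1 T0 (hex T0 hT0.1 hT0.2)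
    refine ⟨m T0, ha0, hn0, fun T hT huT => ?_⟩
    by_contra hb
    have hle := hmax T (Finset.mem_filter.2 ⟨Multiset.mem_toFinset.2 hT, hb⟩)
    obtain ⟨⟨haT, -, huT'⟩, -⟩ := hm1 T (hex T hT hb)
    have hlt : m T < m T0 := lt_of_le_of_ne hle fun h1 => huT' (h1 ▸ huT)
    obtain ⟨t, ht⟩ : ∃ t, m T0 = t + 1 := ⟨m T0 - 1, by omega⟩
    have hat : a ≤ t := by omega
    have htT0 : t ∈ T0 := hmin0 t hat (by omega)
    have hw0 := hs.1 T0 hT0.1
    have hodd : Odd t := by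
      rw [← Nat.not_even_iff_odd]
      intro he
      have := hw0.up t (by omega) he htT0
      rw [← ht] at this
      exact hu0 this
    have hok := ((hs.2 T0 hT0.1 T hT).1.2 t (by omega) hodd htT0 (by rw [← ht]; exact hu0)
      (by rw [← ht]; exact huT))
    by_cases hc : 0 < ty n T ∧ ty n T ≤ t
    · have h1 := hok.1 hc
      have h2 : a < ty n T := by
        by_contra h3
        exact hb ⟨hc.1, by omega⟩
      exact h1 (hmin0 _ (by omega) (by omega))
    · have h1 := hok.2 hc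
      set v := Nat.findGreatest (fun x => x ∉ T) t with hv
      have hv1 : v ∉ T := Nat.findGreatest_spec (P := fun x => x ∉ T) (m := m T) (by omega) huT'
      have hv2 : m T ≤ v := Nat.le_findGreatest (P := fun x => x ∉ T) (by omega) huT'
      have hv3 : v ≤ t := Nat.findGreatest_le t
      have h2 := key_lt_of (n := n) (A := T0) (B := T) (hs.1 T hT) hv3
        (hmin0 v (by omega) (by omega)) hv1 (fun x hx hx' => ?_)
      · omega
      · have h3 : x ∈ T := by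
          by_contra h4
          exact Nat.findGreatest_is_greatest (P := fun x => x ∉ T) hx hx' h4
        exact ⟨fun _ => h3, fun _ => hmin0 x (by omega) (by omega)⟩
  · refine ⟨a, le_rfl, ha, fun T hT _ => ?_⟩
    by_contra h1
    exact hB ⟨T, hT, h1⟩

end KWh
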