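import Pool.Agent.KWh.Defs

set_option autoImplicit false

/-!
PACKAGE KWh-NR. Counting rises.
-/

namespace KWh

variable {n : ℕ} {T : Finset ℕ}

private theorem sum_two_Nr (g : ℕ → ℤ) (n : ℕ) :
    ∑ t ∈ Finset.range (2 * n), g t =
      ∑ i : Fin n, (g (2 * i.val) + g (2 * i.val + 1)) := by
  rw [← Finset.sum_range fun i => g (2 * i) + g (2 * i + 1)]
  induction n with
  | zero => rfl
  | succ n ih =>
    rw [show 2 * (n + 1) = 2 * n + 1 + 1 by ring, Finset.sum_range_succ, Finset.sum_range_succ,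
      ih, Finset.sum_range_succ, add_assoc]

private theorem rise_odd_Nr (hT : IsPre n T) (i : Fin n) :
    (if 2 * i.val + 1 ∉ T ∧ 2 * i.val + 1 + 1 ∈ T then (1 : ℤ) else 0) = 0 := by
  rw [if_neg]
  rintro ⟨h1, h2⟩
  exact h1 (hT.down (2 * i.val + 1) (by have := i.isLt; omega) (odd_two_mul_add_one _) h2)

private theorem fall_even_Nr (hT : IsPre n T) (i : Fin n) :
    (if 2 * i.val ∈ T ∧ 2 * i.val + 1 ∉ T then (1 : ℤ) else 0) = 0 := by
  rw [if_neg]
  rintro ⟨h1, h2⟩
  exact h2 (hT.up (2 * i.val) (by have := i.isLt; omega) (even_two_mul _) h1)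

/-- PROOF. The rises are at even steps `t = 2 i` (`IsPre.down` excludes the odd ones);
`val n T (i, true) = 1` iff the step `2 i` rises. -/
theorem nr_eq (hT : IsPre n T) : ((nr n T : ℕ) : ℤ) = ∑ i : Fin n, val n T (i, true) := by
  rw [nr, Finset.card_filter, Nat.cast_sum]
  simp only [Nat.cast_ite, Nat.cast_one, Nat.cast_zero]
  rw [sum_two_Nr fun t => if t ∉ T ∧ t + 1 ∈ T then (1 : ℤ) else 0]
  refine Finset.sum_congr rfl fun i _ => ?_
  rw [rise_odd_Nr hT i, add_zero]
  rfl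

/-- PROOF. `∑ i, val (i, false) = n - (number of falls)`; the number of falls is the number of rises:
`∑ t < 2 n, ([t + 1 ∈ T] - [t ∈ T]) = [2 n ∈ T] - [0 ∈ T] = 0` (`Finset.sum_range_sub`), a summand
is `1` at a rise, `-1` at a fall, `0` otherwise. -/
theorem sum_val (hT : IsPre n T) : ∑ e : Fin n × Bool, val n T e = n := by
  have h1 := Finset.sum_range_sub (fun t => if t ∈ T then (1 : ℤ) else 0) (2 * n)
  have h2 : (if 2 * n ∈ T then (1 : ℤ) else 0) = if 0 ∈ T then (1 : ℤ) else 0 := by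
    by_cases h : 0 ∈ T
    · rw [if_pos h, if_pos (hT.cyc.1 h)]
    · rw [if_neg h, if_neg fun h3 => h (hT.cyc.2 h3)]
  have h3 : ∀ t : ℕ, ((if t + 1 ∈ T then (1 : ℤ) else 0) - if t ∈ T then (1 : ℤ) else 0) =
      (if t ∉ T ∧ t + 1 ∈ T then (1 : ℤ) else 0) -
        if t ∈ T ∧ t + 1 ∉ T then (1 : ℤ) else 0 := by
    intro t
    by_cases ha : t ∈ T <;> by_cases hb : t + 1 ∈ T <;> simp [ha, hb]
  rw [h2, sub_self, sum_two_Nr (fun t => (if t + 1 ∈ T then (1 : ℤ) else 0) -
    if t ∈ T then (1 : ℤ) else 0) n] at h1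
  have h4 : ∑ i : Fin n, ((1 : ℤ) + (val n T (i, true) + val n T (i, false) - 1)) = n := by
    rw [Finset.sum_add_distrib, Finset.sum_const, Finset.card_univ, Fintype.card_fin,
      nsmul_eq_mul, mul_one]
    have h5 : ∑ i : Fin n, (val n T (i, true) + val n T (i, false) - 1) = 0 := by
      rw [← h1]
      refine Finset.sum_congr rfl fun i _ => ?_
      rw [h3, h3, rise_odd_Nr hT i, fall_even_Nr hT i]
      have h6 : val n T (i, true) =
          if 2 * i.val ∉ T ∧ 2 * i.val + 1 ∈ T then (1 : ℤ) else 0 := rfl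
      have h7 : val n T (i, false) =
          1 - if 2 * i.val + 1 ∈ T ∧ 2 * i.val + 1 + 1 ∉ T then (1 : ℤ) else 0 := by
        show (if 2 * i.val + 1 ∈ T ∧ 2 * i.val + 2 ∉ T then (0 : ℤ) else 1) = _
        by_cases h8 : 2 * i.val + 1 ∈ T ∧ 2 * i.val + 2 ∉ T
        · rw [if_pos h8, if_pos h8, sub_self]
        · rw [if_neg h8, if_neg h8, sub_zero]
      rw [h6, h7]
      ring
    rw [h5, add_zero]
  rw [Fintype.sum_prod_type, ← h4]
  refine Finset.sum_congr rfl fun i _ => ?_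
  rw [Fintype.sum_bool]
  ring

/-- PROOF. If there is no rise, then `t ∉ T → t + 1 ∉ T` for all `t < 2 n`; so from a missing cell `p`
on all cells are missing, also `2 n`, so `0 ∉ T` and all cells are missing, contrary to
`hT.ne`. -/
theorem nr_pos (hT : IsWord n T) : 1 ≤ nr n T := by
  by_contra h
  have h0 : nr n T = 0 := by omega
  rw [nr, Finset.card_eq_zero, Finset.filter_eq_empty_iff] at h0
  have h1 : ∀ t < 2 * n, t ∉ T → t + 1 ∉ T := fun t ht h2 h3 =>
    h0 (Finset.mem_range.2 ht) ⟨h2, h3⟩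
  have h2 : ∀ p, p ∉ T → ∀ j, p + j ≤ 2 * n → p + j ∉ T := by
    intro p hp j
    induction j with
    | zero => exact fun _ => hp
    | succ j ih =>
      intro hj
      exact h1 (p + j) (by omega) (ih (by omega))
  obtain ⟨p, hp, hpT⟩ := hT.pr
  obtain ⟨u, hu, huT⟩ := hT.ne
  have h3 : 2 * n ∉ T := by
    have h4 := h2 p hpT (2 * n - p) (by omega)
    rwa [show p + (2 * n - p) = 2 * n by omega] at h4
  have h4 := h2 0 (fun h5 => h3 (hT.cyc.1 h5)) u (by omega)
  rw [Nat.zero_add] at h4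
  exact h4 huT

end KWh
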