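import Pool.Agent.KWh.Cnt
import Pool.Agent.KWh.Hel
import Pool.Agent.KWh.Nr

set_option autoImplicit false

/-!
PACKAGE KWh-CNTB. The exponent vector determines the numbers `SS` and the numbers of the types.
-/

namespace KWh

variable {n : ℕ} {s s' : Multiset (Finset ℕ)}

private theorem sum_all_CntB (hs : ∀ T ∈ s, IsWord n T) :
    ∑ e : Fin n × Bool, (s.map fun T => val n T e).sum = (n : ℤ) * s.card := by
  induction s using Multiset.induction with
  | empty => simp
  | cons T s ih =>
    simp only [Multiset.map_cons, Multiset.sum_cons, Multiset.card_cons]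
    rw [Finset.sum_add_distrib, ih fun T' hT' => hs T' (Multiset.mem_cons_of_mem hT'),
      sum_val (hs T (Multiset.mem_cons_self T s)).toIsPre]
    push_cast
    ring

/-- PROOF. Sum of the exponents: `n * s.card` (`sum_val`). -/
theorem card_eq (hn : 0 < n) (hs : ∀ T ∈ s, IsWord n T) (hs' : ∀ T ∈ s', IsWord n T)
    (h : Same n s s') : s.card = s'.card := by
  have h1 : (n : ℤ) * s.card = (n : ℤ) * s'.card := by
    rw [← sum_all_CntB hs, ← sum_all_CntB hs']
    exact Finset.sum_congr rfl fun e _ => h e
  have h2 : (n : ℤ) ≠ 0 := by exact_mod_cast hn.ne'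
  exact_mod_cast mul_left_cancel₀ h2 h1

private theorem ss_zero_CntB (hs : Fam n s) : ∃ u ≤ 2 * n, SS s u = 0 := by
  obtain ⟨u, -, hu, h⟩ := helly hs (Nat.zero_le (2 * n))
  refine ⟨u, hu, ?_⟩
  unfold SS
  rw [Multiset.countP_eq_zero]
  intro T hT h1
  have h2 := h T hT h1
  omega

/-- PROOF. `helly` with `a = 0`: some cell `u ≤ 2 n` is in no member, so `SS s u = 0`; the same for
`s'`; with `ss_const` the constant is `≤ 0` and `≥ 0`. -/
theorem ss_eq (hn : 0 < n) (hs : Fam n s) (hs' : Fam n s') (h : Same n s s') {u : ℕ}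
    (hu : u ≤ 2 * n) : SS s u = SS s' u := by
  have hc := card_eq hn hs.1 hs'.1 h
  obtain ⟨v, hv, hv0⟩ := ss_zero_CntB hs
  obtain ⟨w, hw, hw0⟩ := ss_zero_CntB hs'
  have h1 := ss_const hs.1 hs'.1 h hc hu
  have h2 := ss_const hs.1 hs'.1 h hc hv
  have h3 := ss_const hs.1 hs'.1 h hc hw
  omega

private theorem countP_le_CntB {α : Type*} (s : Multiset α) (p q : α → Prop) [DecidablePred p]
    [DecidablePred q] (h : ∀ T ∈ s, p T → q T) : s.countP p ≤ s.countP q := by
  rw [Multiset.countP_eq_card_filter, Multiset.countP_eq_card_filter]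
  have h1 : s.filter p ≤ s.filter q := by
    rw [Multiset.le_filter]
    exact ⟨Multiset.filter_le p s, fun T hT =>
      h T (Multiset.mem_of_mem_filter hT) (Multiset.of_mem_filter hT)⟩
  exact Multiset.card_le_card h1

/-- PROOF. `helly` gives `u ≥ a` such that `SS s' u ≤` the right side; `SS s' u = SS s u`, and the left
side is `≤ SS s u` (`0 < ty n T ≤ a ≤ u` implies `u ∈ T`, `ty_spec`); `Multiset.countP` is monotone
in the predicate (on the members). -/
theorem ty_le_count (hn : 0 < n) (hs : Fam n s) (hs' : Fam n s') (h : Same n s s') {a : ℕ}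
    (ha : a ≤ 2 * n) : s.countP (fun T => 0 < ty n T ∧ ty n T ≤ a) ≤
      s'.countP (fun T => 0 < ty n T ∧ ty n T ≤ a) := by
  obtain ⟨u, hau, hu, h1⟩ := helly hs' ha
  calc s.countP (fun T => 0 < ty n T ∧ ty n T ≤ a) ≤ SS s u := by
        refine countP_le_CntB s _ _ fun T hT h2 => ?_
        obtain ⟨t, -, ht, h3, -, h4⟩ := ty_spec (hs.1 T hT) h2.1
        exact h4 u (by omega) hu
    _ = SS s' u := ss_eq hn hs hs' h hu
    _ ≤ _ := countP_le_CntB s' _ _ fun T hT h2 => h1 T hT h2

private theorem split_CntB (s : Multiset (Finset ℕ)) (b : ℕ) :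
    s.countP (fun T => 0 < ty n T ∧ ty n T ≤ b + 1) =
      s.countP (fun T => 0 < ty n T ∧ ty n T ≤ b) + s.countP (fun T => ty n T = b + 1) := by
  induction s using Multiset.induction with
  | empty => simp
  | cons T s ih =>
    simp only [Multiset.countP_cons]
    rw [ih]
    have h1 : (if 0 < ty n T ∧ ty n T ≤ b + 1 then 1 else 0 : ℕ) =
        (if 0 < ty n T ∧ ty n T ≤ b then 1 else 0) + if ty n T = b + 1 then 1 else 0 := by
      split_ifs <;> omega
    rw [h1]
    ring

private theorem split0_CntB (hs : ∀ T ∈ s, IsWord n T) :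
    s.card = s.countP (fun T => 0 < ty n T ∧ ty n T ≤ 2 * n) +
      s.countP (fun T => ty n T = 0) := by
  induction s using Multiset.induction with
  | empty => simp
  | cons T s ih =>
    simp only [Multiset.countP_cons, Multiset.card_cons]
    have ih' := ih fun T' hT' => hs T' (Multiset.mem_cons_of_mem hT')
    have h0 := ty_lt (hs T (Multiset.mem_cons_self T s))
    have h1 : 1 = (if 0 < ty n T ∧ ty n T ≤ 2 * n then 1 else 0 : ℕ) +
        if ty n T = 0 then 1 else 0 := by
      split_ifs <;> omega
    omega

/-- PROOF. `ty_le_count` in both directions; so for every `a` with `0 < a ≤ 2 n` the number of the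
members with `ty n T = a` is the same; all `ty n T ≤ 2 n` (`ty_lt`); the number of the members with
`ty n T = 0` is `s.card` minus those with `0 < ty n T ≤ 2 n`.  `Multiset.ext`,
`Multiset.count_map` or `Multiset.countP_map`. -/
theorem ty_eq_map (hn : 0 < n) (hs : Fam n s) (hs' : Fam n s') (h : Same n s s') :
    s.map (ty n) = s'.map (ty n) := by
  have hle : ∀ {a : ℕ}, a ≤ 2 * n → s.countP (fun T => 0 < ty n T ∧ ty n T ≤ a) =
      s'.countP (fun T => 0 < ty n T ∧ ty n T ≤ a) := fun ha =>
    le_antisymm (ty_le_count hn hs hs' h ha) (ty_le_count hn hs' hs h.symm ha)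
  have hc := card_eq hn hs.1 hs'.1 h
  have hkey : ∀ a, s.countP (fun T => ty n T = a) = s'.countP (fun T => ty n T = a) := by
    intro a
    rcases a with _ | b
    · have h1 := split0_CntB hs.1
      have h2 := split0_CntB hs'.1
      have h3 := hle (le_refl (2 * n))
      omega
    · by_cases hb : b + 1 ≤ 2 * n
      · have h1 := split_CntB (n := n) s b
        have h2 := split_CntB (n := n) s' b
        have h3 := hle hb
        have h4 := hle (show b ≤ 2 * n by omega)
        omega
      · have h1 : s.countP (fun T => ty n T = b + 1) = 0 := by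
          rw [Multiset.countP_eq_zero]
          intro T hT h2
          have := ty_lt (hs.1 T hT)
          omega
        have h2 : s'.countP (fun T => ty n T = b + 1) = 0 := by
          rw [Multiset.countP_eq_zero]
          intro T hT h2
          have := ty_lt (hs'.1 T hT)
          omega
        rw [h1, h2]
  ext a
  have hcm : ∀ r : Multiset (Finset ℕ), (r.map (ty n)).count a =
      r.countP (fun T => ty n T = a) := by
    intro r
    rw [Multiset.count_map, Multiset.countP_eq_card_filter]
    congr 1
    exact Multiset.filter_congr fun T _ => eq_comm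
  rw [hcm, hcm, hkey]

end KWh
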