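import Mathlib

/-!
# KWh: the wheels have quadratic Groebner bases (MP_6c1116_co), definitions

The page is /team-store/kwh_page.md.  A *word* is the set `T` of the cells `u ∈ {0, .., 2 n}` with
value `1`; step `t < 2 n` leads from cell `t` to cell `t + 1`; even steps can only rise (`0 → 1`),
odd steps can only fall (`1 → 0`); the cells `0` and `2 n` have the same value.  Step `2 i` rises
iff the spoke `i` is in the tree, step `2 i + 1` falls iff the rim edge `i` is not in the tree.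
-/

set_option autoImplicit false

namespace KWh

/-- `T` is a cyclic 0/1 sequence which rises only at even steps and falls only at odd steps. -/
structure IsPre (n : ℕ) (T : Finset ℕ) : Prop where
  le : ∀ u ∈ T, u ≤ 2 * n
  cyc : 0 ∈ T ↔ 2 * n ∈ T
  up : ∀ t < 2 * n, Even t → t ∈ T → t + 1 ∈ T
  down : ∀ t < 2 * n, Odd t → t + 1 ∈ T → t ∈ T

/-- A word: a cyclic 0/1 sequence which is not constant. -/
structure IsWord (n : ℕ) (T : Finset ℕ) : Prop extends IsPre n T where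
  ne : ∃ u ≤ 2 * n, u ∈ T
  pr : ∃ u ≤ 2 * n, u ∉ T

/-- The first cell of the final block of ones, `0` if the last cell is `0`. -/
def ty (n : ℕ) (T : Finset ℕ) : ℕ :=
  if 2 * n ∈ T then ((Finset.range (2 * n)).filter (· ∉ T)).sup id + 1 else 0

/-- The history up to the cell `t`, as a binary number. -/
def hs (T : Finset ℕ) (t : ℕ) : ℕ := ∑ u ∈ T.filter (· ≤ t), 2 ^ u

/-- The key: history and final block. -/
def key (n : ℕ) (T : Finset ℕ) (t : ℕ) : ℕ := (2 * n + 1) * hs T t + ty n T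

/-- The colour `A` may act in the presence of `B`: whenever both have the same value and only `A`
changes, the key of `A` is not larger, with two exceptions (final blocks). -/
def Ok (n : ℕ) (A B : Finset ℕ) : Prop :=
  (∀ t < 2 * n, Even t → t ∉ A → t + 1 ∈ A → t + 1 ∉ B → ty n A ≠ t + 1 →
    key n A t ≤ key n B t) ∧
  (∀ t < 2 * n, Odd t → t ∈ A → t + 1 ∉ A → t + 1 ∈ B →
    ((0 < ty n B ∧ ty n B ≤ t → ty n B - 1 ∉ A) ∧
      (¬ (0 < ty n B ∧ ty n B ≤ t) → key n A t ≤ key n B t)))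

/-- Standard pairs. -/
def Std (n : ℕ) (A B : Finset ℕ) : Prop := Ok n A B ∧ Ok n B A

/-- Bound for the keys. -/
def MM (n : ℕ) : ℕ := (2 * n + 1) * 2 ^ (2 * n + 1)

def KK (n : ℕ) : ℕ := 2 * MM n + 2

/-- The contribution of the step `t` to the weight. -/
def ch (n : ℕ) (T : Finset ℕ) (t : ℕ) : ℕ :=
  if (t ∈ T ↔ t + 1 ∈ T) ∨ ty n T = t + 1 then 0 else key n T t

/-- The weight. -/
def wt (n : ℕ) (T : Finset ℕ) : ℕ :=
  KK n ^ (2 * n + 2) * ty n T + ∑ t ∈ Finset.range (2 * n), KK n ^ (2 * n - t) * ch n T t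

/-- The exponent vector: `(i, true)` is the spoke `i`, `(i, false)` the rim edge `i`. -/
def val (n : ℕ) (T : Finset ℕ) (e : Fin n × Bool) : ℤ :=
  if e.2 then (if 2 * e.1.val ∉ T ∧ 2 * e.1.val + 1 ∈ T then 1 else 0)
  else (if 2 * e.1.val + 1 ∈ T ∧ 2 * e.1.val + 2 ∉ T then 0 else 1)

/-- The number of rises. -/
def nr (n : ℕ) (T : Finset ℕ) : ℕ :=
  ((Finset.range (2 * n)).filter fun t => t ∉ T ∧ t + 1 ∈ T).card

/-- Exchange of the cells `u ≤ x < v`. -/
def sw (A B : Finset ℕ) (u v : ℕ) : Finset ℕ :=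
  A.filter (fun x => ¬ (u ≤ x ∧ x < v)) ∪ B.filter (fun x => u ≤ x ∧ x < v)

theorem mem_sw {A B : Finset ℕ} {u v x : ℕ} :
    x ∈ sw A B u v ↔ if u ≤ x ∧ x < v then x ∈ B else x ∈ A := by
  unfold sw
  rw [Finset.mem_union, Finset.mem_filter, Finset.mem_filter]
  split_ifs with h
  · exact ⟨fun h1 => h1.elim (fun h2 => absurd h h2.2) (fun h2 => h2.1), fun h1 => Or.inr ⟨h1, h⟩⟩
  · exact ⟨fun h1 => h1.elim (fun h2 => h2.1) (fun h2 => absurd h2.2 h), fun h1 => Or.inl ⟨h1, h⟩⟩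

theorem Std.symm {n : ℕ} {A B : Finset ℕ} (h : Std n A B) : Std n B A := ⟨h.2, h.1⟩

/-- A pair of equal words is standard. -/
theorem Std.refl (n : ℕ) (A : Finset ℕ) : Std n A A := by
  have h : Ok n A A := ⟨fun t _ _ _ h1 h2 _ => absurd h1 h2, fun t _ _ _ h1 h2 => absurd h2 h1⟩
  exact ⟨h, h⟩

end KWh
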