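import Mathlib

set_option autoImplicit false

/-!
PACKAGE KWh-SEL. The selection lemma.
-/

namespace KWh

/-- PROOF. Suppose `S ≠ S'`.  For every `a` the numbers of `(a, true)` and `(a, false)` have the same sum
in `S` and in `S'` (`h1`); the total number of `(·, true)` is the same (`h2`).  So there is `a` such
that `(a, true)` is more frequent in `S`, and `b` such that `(b, true)` is more frequent in `S'`.
Then `(a, true) ∈ S`, `(a, false) ∈ S'`, `(b, true) ∈ S'`, `(b, false) ∈ S`, so `R a b` and `R b a`,
`a = b`, a contradiction. -/
theorem sel {κ : Type*} (R : κ → κ → Prop) (hR : ∀ a b, R a b → R b a → a = b)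
    {S S' : Multiset (κ × Bool)} (h1 : S.map Prod.fst = S'.map Prod.fst)
    (h2 : S.countP (fun x => x.2 = true) = S'.countP (fun x => x.2 = true))
    (h3 : ∀ x ∈ S, ∀ y ∈ S, x.2 = true → y.2 = false → R x.1 y.1)
    (h4 : ∀ x ∈ S', ∀ y ∈ S', x.2 = true → y.2 = false → R x.1 y.1) : S = S' := by
  classical
  have hsum : ∀ (U : Multiset (κ × Bool)) (a : κ),
      (U.map Prod.fst).count a = U.count (a, true) + U.count (a, false) := by
    intro U a
    induction U using Multiset.induction_on with
    | empty => simp
    | cons x U ih =>
      obtain ⟨c, b⟩ := x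
      rw [Multiset.map_cons, Multiset.count_cons, ih, Multiset.count_cons, Multiset.count_cons]
      by_cases hac : a = c
      · subst hac
        cases b <;> simp <;> omega
      · simp [hac]
  have hcnt : ∀ (U : Multiset (κ × Bool)) (a : κ),
      ((U.filter fun x => x.2 = true).map Prod.fst).count a = U.count (a, true) := by
    intro U a
    induction U using Multiset.induction_on with
    | empty => simp
    | cons x U ih =>
      obtain ⟨c, b⟩ := x
      cases b
      · rw [Multiset.filter_cons_of_neg _ (by simp), ih, Multiset.count_cons]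
        simp
      · rw [Multiset.filter_cons_of_pos _ (by simp), Multiset.map_cons, Multiset.count_cons, ih,
          Multiset.count_cons]
        by_cases hac : a = c
        · subst hac
          simp
        · simp [hac]
  have hcard : ∀ U : Multiset (κ × Bool), ((U.filter fun x => x.2 = true).map Prod.fst).card =
      U.countP (fun x => x.2 = true) := by
    intro U
    rw [Multiset.card_map, Multiset.countP_eq_card_filter]
  have htot : ∀ a, S.count (a, true) + S.count (a, false) =
      S'.count (a, true) + S'.count (a, false) := by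
    intro a
    rw [← hsum, ← hsum, h1]
  by_contra hne
  have hex : ∀ U U' : Multiset (κ × Bool), U.countP (fun x => x.2 = true) =
      U'.countP (fun x => x.2 = true) →
      (∀ a, U.count (a, true) + U.count (a, false) = U'.count (a, true) + U'.count (a, false)) →
      U ≠ U' → ∃ a, U'.count (a, true) < U.count (a, true) := by
    intro U U' hc ht hn
    by_contra hcon
    push Not at hcon
    have hle : (U.filter fun x => x.2 = true).map Prod.fst ≤
        (U'.filter fun x => x.2 = true).map Prod.fst := by
      rw [Multiset.le_iff_count]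
      intro a
      rw [hcnt, hcnt]
      exact hcon a
    have heq := Multiset.eq_of_le_of_card_le hle (by rw [hcard, hcard, hc])
    apply hn
    rw [Multiset.ext]
    rintro ⟨a, b⟩
    have h5 : U.count (a, true) = U'.count (a, true) := by
      rw [← hcnt, ← hcnt, heq]
    cases b
    · have := ht a
      omega
    · exact h5
  obtain ⟨a, ha⟩ := hex S S' h2 htot hne
  obtain ⟨b, hb⟩ := hex S' S h2.symm (fun a => (htot a).symm) (fun h => hne h.symm)
  have ha1 : (a, true) ∈ S := Multiset.count_pos.1 (by omega)
  have ha2 : (a, false) ∈ S' := Multiset.count_pos.1 (by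
    have := htot a
    omega)
  have hb1 : (b, true) ∈ S' := Multiset.count_pos.1 (by omega)
  have hb2 : (b, false) ∈ S := Multiset.count_pos.1 (by
    have := htot b
    omega)
  have hab : R a b := h3 (a, true) ha1 (b, false) hb2 rfl rfl
  have hba : R b a := h4 (b, true) hb1 (a, false) ha2 rfl rfl
  have := hR a b hab hba
  subst this
  omega

/-- A form of `sel` for two functions: `k` the key, `p` the property, `q` the rank. -/
theorem sel_map {α : Type*} {s s' : Multiset α} (k : α → ℕ) (p : α → Prop)
    [DecidablePred p] (q : ℕ → ℕ)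
    (h1 : s.map k = s'.map k) (h2 : s.countP p = s'.countP p)
    (h3 : ∀ A ∈ s, ∀ B ∈ s, p A → ¬ p B → q (k A) < q (k B) ∨ (q (k A) = q (k B) ∧ k A ≤ k B))
    (h4 : ∀ A ∈ s', ∀ B ∈ s', p A → ¬ p B → q (k A) < q (k B) ∨ (q (k A) = q (k B) ∧ k A ≤ k B)) :
    (s.map fun A => (k A, p A)) = s'.map fun A => (k A, p A) := by
  have hS : s.map (fun A => (k A, decide (p A))) = s'.map (fun A => (k A, decide (p A))) := by
    refine sel (fun a b => q a < q b ∨ (q a = q b ∧ a ≤ b)) ?_ ?_ ?_ ?_ ?_
    · rintro a b (hab | ⟨hab, hab'⟩) (hba | ⟨hba, hba'⟩)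
      · omega
      · omega
      · omega
      · omega
    · rw [Multiset.map_map, Multiset.map_map]
      exact h1
    · rw [Multiset.countP_map, Multiset.countP_map]
      simp only [decide_eq_true_eq]
      rw [← Multiset.countP_eq_card_filter, ← Multiset.countP_eq_card_filter]
      exact h2
    · intro x hx y hy hx2 hy2
      obtain ⟨A, hA, rfl⟩ := Multiset.mem_map.1 hx
      obtain ⟨B, hB, rfl⟩ := Multiset.mem_map.1 hy
      exact h3 A hA B hB (of_decide_eq_true hx2) (of_decide_eq_false hy2)
    · intro x hx y hy hx2 hy2
      obtain ⟨A, hA, rfl⟩ := Multiset.mem_map.1 hx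
      obtain ⟨B, hB, rfl⟩ := Multiset.mem_map.1 hy
      exact h4 A hA B hB (of_decide_eq_true hx2) (of_decide_eq_false hy2)
  have h5 := congrArg (Multiset.map fun x : ℕ × Bool => (x.1, x.2 = true)) hS
  rw [Multiset.map_map, Multiset.map_map] at h5
  simpa [Function.comp_def] using h5

end KWh
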