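import Pool.Agent.KWh.Fam
import Pool.Agent.KWh.Sel

set_option autoImplicit false

/-!
PACKAGE KWh-INDA. The induction steps.
-/

namespace KWh

variable {n : ℕ} {s s' : Multiset (Finset ℕ)}

/-- PROOF. `Nat.add_mul_mod_self_left`, `ty_lt`. -/
theorem key_mod {T : Finset ℕ} (hT : IsWord n T) (t : ℕ) : key n T t % (2 * n + 1) = ty n T := by
  unfold key
  rw [Nat.mul_add_mod, Nat.mod_eq_of_lt (ty_lt hT)]

/-- PROOF. `Nat.mul_add_div`, `ty_lt`. -/
theorem key_div {T : Finset ℕ} (hT : IsWord n T) (t : ℕ) : key n T t / (2 * n + 1) = hs T t := by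
  unfold key
  rw [Nat.mul_add_div (Nat.succ_pos _), Nat.div_eq_of_lt (ty_lt hT), add_zero]

/-- PROOF. `t = 0`: `hs T 0 = [0 ∈ T]`.  `t = w + 1`: `hs_succ`, `hs_lt_pow T w`. -/
theorem mem_iff_hs {T : Finset ℕ} (t : ℕ) : t ∈ T ↔ 2 ^ t ≤ hs T t := by
  cases t with
  | zero =>
    have h0 : hs T 0 = if 0 ∈ T then 1 else 0 := by
      unfold hs
      by_cases h : 0 ∈ T
      · rw [if_pos h]
        have : T.filter (· ≤ 0) = {0} := by
          ext u
          rw [Finset.mem_filter, Finset.mem_singleton]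
          constructor
          · rintro ⟨-, h1⟩
            exact Nat.le_zero.1 h1
          · rintro rfl
            exact ⟨h, le_rfl⟩
        rw [this, Finset.sum_singleton, pow_zero]
      · rw [if_neg h]
        have : T.filter (· ≤ 0) = ∅ := by
          ext u
          rw [Finset.mem_filter]
          constructor
          · rintro ⟨h2, h1⟩
            rw [Nat.le_zero.1 h1] at h2
            exact absurd h2 h
          · intro h1
            exact absurd h1 (Finset.notMem_empty _)
        rw [this, Finset.sum_empty]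
    rw [h0, pow_zero]
    by_cases h : 0 ∈ T
    · rw [if_pos h]
      exact ⟨fun _ => le_rfl, fun _ => h⟩
    · rw [if_neg h]
      exact ⟨fun h1 => absurd h1 h, fun h1 => absurd h1 (by omega)⟩
  | succ w =>
    have h1 := hs_lt_pow T w
    rw [hs_succ]
    by_cases h : w + 1 ∈ T
    · rw [if_pos h]
      exact ⟨fun _ => by omega, fun _ => h⟩
    · rw [if_neg h]
      exact ⟨fun h2 => absurd h2 h, fun h2 => absurd h2 (by omega)⟩

/-- The rank for an even step: `0` if the member has to be in the cell `t + 1`. -/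
def qe (n t k : ℕ) : ℕ := if 2 ^ t ≤ k / (2 * n + 1) ∨ k % (2 * n + 1) = t + 1 then 0 else 1

/-- The rank for an odd step: `0` if the member is not in the cell `t`, `2` if it has to stay. -/
def qo (n t k : ℕ) : ℕ :=
  if ¬ 2 ^ t ≤ k / (2 * n + 1) then 0
  else if 0 < k % (2 * n + 1) ∧ k % (2 * n + 1) ≤ t then 2 else 1

/-- PROOF. `sel_map` with `k = key n · t`, `p A = (t + 1 ∈ A)`, `q = qe n t`.  `h3`: `t + 1 ∉ B`, so
`t ∉ B` (`up`) and `ty n B ≠ t + 1` (`ty_spec`), the rank of `B` is `1`; if the rank of `A` is `1`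
then `t ∉ A`, `ty n A ≠ t + 1` and the first part of `Ok n A B` gives `key n A t ≤ key n B t`. -/
theorem step_even (hs : Fam n s) (hs' : Fam n s') {t : ℕ} (ht : t < 2 * n) (he : Even t)
    (hk : (s.map fun T => key n T t) = s'.map fun T => key n T t)
    (hS : SS s (t + 1) = SS s' (t + 1)) :
    (s.map fun T => (key n T t, t + 1 ∈ T)) = s'.map fun T => (key n T t, t + 1 ∈ T) := by
  have key3 : ∀ {u : Multiset (Finset ℕ)}, Fam n u → ∀ A ∈ u, ∀ B ∈ u, t + 1 ∈ A → ¬ t + 1 ∈ B →
      qe n t (key n A t) < qe n t (key n B t) ∨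
        (qe n t (key n A t) = qe n t (key n B t) ∧ key n A t ≤ key n B t) := by
    intro u hu A hA B hB h1 h2
    have wA := hu.1 A hA
    have wB := hu.1 B hB
    have htB : t ∉ B := fun h => h2 (wB.up t ht he h)
    have htyB : ty n B ≠ t + 1 := by
      intro h
      obtain ⟨t', -, -, h5, -, h6⟩ := ty_spec wB (by omega)
      exact h2 (h6 (t + 1) (by omega) (by omega))
    have rB : qe n t (key n B t) = 1 := by
      unfold qe
      rw [key_div wB, key_mod wB, if_neg]
      rintro (h | h)
      · exact htB ((mem_iff_hs t).2 h)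
      · exact htyB h
    rw [rB]
    by_cases h3 : t ∈ A ∨ ty n A = t + 1
    · left
      unfold qe
      rw [key_div wA, key_mod wA, if_pos (h3.imp (mem_iff_hs t).1 id)]
      exact one_pos
    · right
      have rA : qe n t (key n A t) = 1 := by
        unfold qe
        rw [key_div wA, key_mod wA, if_neg fun h => h3 (h.imp (mem_iff_hs t).2 id)]
      rw [not_or] at h3
      exact ⟨rA, (hu.2 A hA B hB).1.1 t ht he h3.1 h1 h2 h3.2⟩
  exact sel_map (fun T => key n T t) (fun T => t + 1 ∈ T) (qe n t) hk hS (key3 hs) (key3 hs')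

/-- PROOF. `sel_map` with `k = key n · t`, `p A = (t + 1 ∉ A)`, `q = qo n t` (the numbers of the members
with `t + 1 ∉ A` agree because `s.card = s'.card`, by `hk`).  `h3`: `t + 1 ∈ B`, so `t ∈ B`
(`down`), the rank of `B` is `1` or `2`; `t + 1 ∉ A`, so not `0 < ty n A ≤ t` (`ty_spec`), the rank
of `A` is `0` or `1`; if both are `1` then `t ∈ A` and the second part of `Ok n A B` gives
`key n A t ≤ key n B t`.  At the end apply `(k, p) ↦ (k, ¬ p)`. -/
theorem step_odd (hs : Fam n s) (hs' : Fam n s') {t : ℕ} (ht : t < 2 * n) (ho : Odd t)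
    (hk : (s.map fun T => key n T t) = s'.map fun T => key n T t)
    (hS : SS s (t + 1) = SS s' (t + 1)) :
    (s.map fun T => (key n T t, t + 1 ∈ T)) = s'.map fun T => (key n T t, t + 1 ∈ T) := by
  have key3 : ∀ {u : Multiset (Finset ℕ)}, Fam n u → ∀ A ∈ u, ∀ B ∈ u, t + 1 ∉ A → ¬ t + 1 ∉ B →
      qo n t (key n A t) < qo n t (key n B t) ∨
        (qo n t (key n A t) = qo n t (key n B t) ∧ key n A t ≤ key n B t) := by
    intro u hu A hA B hB h1 h2
    have wA := hu.1 A hA
    have wB := hu.1 B hB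
    rw [not_not] at h2
    have htB : t ∈ B := wB.down t ht ho h2
    have htyA : ¬ (0 < ty n A ∧ ty n A ≤ t) := by
      rintro ⟨h3, h4⟩
      obtain ⟨t', -, -, h5, -, h6⟩ := ty_spec wA h3
      exact h1 (h6 (t + 1) (by omega) (by omega))
    have eA : qo n t (key n A t) = if ¬ t ∈ A then 0 else 1 := by
      unfold qo
      rw [key_div wA, key_mod wA]
      by_cases h3 : t ∈ A
      · rw [if_neg (not_not.2 ((mem_iff_hs t).1 h3)), if_neg htyA, if_neg (not_not.2 h3)]
      · rw [if_pos fun h => h3 ((mem_iff_hs t).2 h), if_pos h3]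
    have eB : qo n t (key n B t) = if 0 < ty n B ∧ ty n B ≤ t then 2 else 1 := by
      unfold qo
      rw [key_div wB, key_mod wB, if_neg (not_not.2 ((mem_iff_hs t).1 htB))]
    rw [eA, eB]
    by_cases h3 : t ∈ A
    · rw [if_neg (not_not.2 h3)]
      by_cases h4 : 0 < ty n B ∧ ty n B ≤ t
      · rw [if_pos h4]
        exact Or.inl (by omega)
      · rw [if_neg h4]
        exact Or.inr ⟨rfl, ((hu.2 A hA B hB).1.2 t ht ho h3 h1 h2).2 h4⟩
    · rw [if_pos h3]
      left
      split_ifs <;> omega
  have hcard : s.card = s'.card := by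
    have := congrArg Multiset.card hk
    rwa [Multiset.card_map, Multiset.card_map] at this
  have hcount : s.countP (fun T => t + 1 ∉ T) = s'.countP (fun T => t + 1 ∉ T) := by
    have e1 := Multiset.card_eq_countP_add_countP (fun T : Finset ℕ => t + 1 ∈ T) s
    have e2 := Multiset.card_eq_countP_add_countP (fun T : Finset ℕ => t + 1 ∈ T) s'
    unfold SS at hS
    omega
  have h5 := sel_map (fun T => key n T t) (fun T => t + 1 ∉ T) (qo n t) hk hcount (key3 hs)
    (key3 hs')
  have h6 := congrArg (Multiset.map fun x : ℕ × Prop => (x.1, ¬ x.2)) h5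
  rw [Multiset.map_map, Multiset.map_map] at h6
  simpa only [Function.comp_def, not_not] using h6

end KWh
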