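import Pool.Agent.KWh.CntB
import Pool.Agent.KWh.IndA

set_option autoImplicit false

/-!
PACKAGE KWh-IND. The induction on the cells.
-/

namespace KWh

variable {n : ℕ} {s s' : Multiset (Finset ℕ)}

/-- PROOF. Induction on `t`.  `t = 0`: `key n T 0 = (2 n + 1) * (if 0 < ty n T then 1 else 0) + ty n T`
(`hs T 0 = 1` iff `0 ∈ T` iff `2 n ∈ T` iff `0 < ty n T`), `ty_eq_map`.  Step: `step_even`,
`step_odd`, `key n T (t + 1) = key n T t + (2 n + 1) * (if t + 1 ∈ T then 2 ^ (t + 1) else 0)`
(`hs_succ`), apply a function to the pairs (`ss_eq` for `hS`). -/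
theorem key_map_eq (hn : 0 < n) (hs : Fam n s) (hs' : Fam n s') (h : Same n s s') {t : ℕ}
    (ht : t ≤ 2 * n) : (s.map fun T => key n T t) = s'.map fun T => key n T t := by
  induction t with
  | zero =>
    have h0 : ∀ T, IsWord n T →
        key n T 0 = (2 * n + 1) * (if 0 < ty n T then 1 else 0) + ty n T := by
      intro T hT
      have h1 : KWh.hs T 0 = if 0 < ty n T then 1 else 0 := by
        by_cases h2 : 0 ∈ T
        · rw [if_pos (ty_pos (hT.cyc.1 h2))]
          have h3 : T.filter (· ≤ 0) = {0} := by
            ext u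
            rw [Finset.mem_filter, Finset.mem_singleton, Nat.le_zero]
            exact ⟨fun h => h.2, fun h => ⟨h ▸ h2, h⟩⟩
          unfold KWh.hs
          rw [h3, Finset.sum_singleton, pow_zero]
        · have h4 : ¬ 0 < ty n T := fun h => h2 (hT.cyc.2 (mem_of_ty_pos h))
          rw [if_neg h4]
          have h3 : T.filter (· ≤ 0) = ∅ := by
            ext u
            rw [Finset.mem_filter, Nat.le_zero]
            exact ⟨fun h => absurd (h.2 ▸ h.1) h2, fun h => absurd h (Finset.notMem_empty u)⟩
          unfold KWh.hs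
          rw [h3, Finset.sum_empty]
      unfold key
      rw [h1]
    rw [Multiset.map_congr rfl fun T hT => h0 T (hs.1 T hT),
      Multiset.map_congr (s := s') rfl fun T hT => h0 T (hs'.1 T hT)]
    have h1 := congrArg
      (Multiset.map fun k => (2 * n + 1) * (if 0 < k then 1 else 0) + k) (ty_eq_map hn hs hs' h)
    rw [Multiset.map_map, Multiset.map_map] at h1
    exact h1
  | succ t ih =>
    have h1 := ih (by omega)
    have hS := ss_eq hn hs hs' h ht
    have h2 : (s.map fun T => (key n T t, t + 1 ∈ T)) =
        s'.map fun T => (key n T t, t + 1 ∈ T) := by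
      rcases Nat.even_or_odd t with he | ho
      · exact step_even hs hs' (by omega) he h1 hS
      · exact step_odd hs hs' (by omega) ho h1 hS
    classical
    have h3 := congrArg (Multiset.map fun x : ℕ × Prop =>
      x.1 + (2 * n + 1) * (if x.2 then 2 ^ (t + 1) else 0)) h2
    rw [Multiset.map_map, Multiset.map_map] at h3
    have h4 : (fun T => key n T (t + 1)) = (fun x : ℕ × Prop =>
        x.1 + (2 * n + 1) * (if x.2 then 2 ^ (t + 1) else 0)) ∘
          fun T => (key n T t, t + 1 ∈ T) := by
      funext T
      rw [Function.comp_apply]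
      unfold key
      rw [hs_succ]
      by_cases h5 : t + 1 ∈ T
      · rw [if_pos h5, if_pos h5]
        ring
      · rw [if_neg h5, if_neg h5]
        ring
    rw [h4]
    exact h3

/-- PROOF. `key_map_eq` with `t = 2 n`; `key n · (2 n)` is injective on the words (`key_inj`,
`IsPre.le`); apply a left inverse (`Function.invFunOn`). -/
theorem uniq (hn : 0 < n) (hs : Fam n s) (hs' : Fam n s') (h : Same n s s') : s = s' := by
  have h1 := key_map_eq hn hs hs' h le_rfl
  have hinj : Set.InjOn (fun T => key n T (2 * n)) {T | IsWord n T} := by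
    intro A hA B hB hAB
    have h2 := (key_inj hA hB hAB).1
    ext u
    by_cases hu : u ≤ 2 * n
    · exact h2 u hu
    · exact ⟨fun h3 => absurd (hA.le u h3) hu, fun h3 => absurd (hB.le u h3) hu⟩
  have h2 := congrArg (Multiset.map
    (Function.invFunOn (fun T => key n T (2 * n)) {T | IsWord n T})) h1
  rw [Multiset.map_map, Multiset.map_map] at h2
  have h3 : ∀ s : Multiset (Finset ℕ), (∀ T ∈ s, IsWord n T) → s.map
      (Function.invFunOn (fun T => key n T (2 * n)) {T | IsWord n T} ∘
        fun T => key n T (2 * n)) = s := by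
    intro s hs
    conv_rhs => rw [← Multiset.map_id s]
    exact Multiset.map_congr rfl fun T hT => hinj.leftInvOn_invFunOn (hs T hT)
  rwa [h3 s hs.1, h3 s' hs'.1] at h2

end KWh
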