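import Pool.Agent.KWh.Red
import Pool.Agent.KWh.Ind
import Pool.Agent.KGB.Main

set_option autoImplicit false

/-!
PACKAGE KWh-EMB. The words give a quadratic normal form for the family of the spanning trees.
-/

namespace KWh

open KSum KSpM

/-- The edge set of a word. -/
def bs (n : ℕ) (T : Finset ℕ) : Finset (Fin n × Bool) := Finset.univ.filter fun e => val n T e = 1

/-- The family of the edge sets of the words, moved to `α`. -/
def fam (n : ℕ) {α : Type*} (f : Fin n × Bool ↪ α) : Set (Finset α) :=
  {B | ∃ T, IsWord n T ∧ B = (bs n T).map f}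

variable {n : ℕ} {s s' : Multiset (Finset ℕ)} {T A B : Finset ℕ} {α : Type*}

/-- PROOF. `val` has only the values `0` and `1`. -/
theorem val_eq_indv (T : Finset ℕ) (e : Fin n × Bool) : val n T e = indv (bs n T) e := by
  have h : val n T e = 0 ∨ val n T e = 1 := by
    unfold val
    split_ifs <;> simp
  unfold indv
  by_cases hm : e ∈ bs n T
  · rw [if_pos hm]
    exact (Finset.mem_filter.1 hm).2
  · rw [if_neg hm]
    exact h.resolve_right fun h1 => hm (Finset.mem_filter.2 ⟨Finset.mem_univ e, h1⟩)

/-- PROOF. `indv`, `Finset.mem_map'`. -/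
theorem indv_map (f : Fin n × Bool ↪ α) (T : Finset ℕ) (e : Fin n × Bool) :
    indv ((bs n T).map f) (f e) = val n T e := by
  rw [val_eq_indv]
  unfold indv
  by_cases h : e ∈ bs n T
  · rw [if_pos h, if_pos ((Finset.mem_map' f).2 h)]
  · rw [if_neg h, if_neg fun h1 => h ((Finset.mem_map' f).1 h1)]

/-- PROOF. `Finset.mem_map`. -/
theorem indv_map_of {f : Fin n × Bool ↪ α} {i : α} (h : ∀ e, f e ≠ i) (T : Finset ℕ) :
    indv ((bs n T).map f) i = 0 := by
  unfold indv
  rw [if_neg]
  intro h1
  obtain ⟨e, _, he⟩ := Finset.mem_map.1 h1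
  exact h e he

/-- PROOF. `sum_val` and `val_eq_indv`. -/
theorem card_bs (hT : IsWord n T) : (bs n T).card = n := by
  have h := sum_val hT.toIsPre
  have h1 : ∀ e ∈ (Finset.univ : Finset (Fin n × Bool)),
      val n T e = if val n T e = 1 then 1 else 0 := by
    intro e _
    unfold val
    split_ifs <;> simp_all
  rw [Finset.sum_congr rfl h1, Finset.sum_boole] at h
  exact_mod_cast h

/-- PROOF. `uniq` for the multisets `{A}` and `{B}` (`Std.refl`). -/
theorem bs_inj (hn : 0 < n) (hA : IsWord n A) (hB : IsWord n B) (h : bs n A = bs n B) : A = B := by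
  have h1 : ∀ T, IsWord n T → Fam n {T} := by
    intro T hT
    refine ⟨fun A hA => ?_, fun A hA B hB => ?_⟩
    · rw [Multiset.mem_singleton] at hA
      rwa [hA]
    · rw [Multiset.mem_singleton] at hA hB
      rw [hA, hB]
      exact Std.refl n T
  have h2 := uniq hn (h1 A hA) (h1 B hB) fun e => by
    rw [Multiset.map_singleton, Multiset.map_singleton, Multiset.sum_singleton,
      Multiset.sum_singleton, val_eq_indv, val_eq_indv, h]
  exact Multiset.singleton_inj.1 h2

/-- The word of a member. -/
noncomputable def wd {f : Fin n × Bool ↪ α} (B : {B // B ∈ fam n f}) : Finset ℕ := B.2.choose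

theorem wd_word {f : Fin n × Bool ↪ α} (B : {B // B ∈ fam n f}) : IsWord n (wd B) :=
  B.2.choose_spec.1

theorem wd_eq {f : Fin n × Bool ↪ α} (B : {B // B ∈ fam n f}) : B.1 = (bs n (wd B)).map f :=
  B.2.choose_spec.2

/-- PROOF. `red` uses the edge sets of the words `C`, `D`; their words are `C`, `D` (`bs_inj`,
`Finset.map_injective`).  `uniq`: the multisets `s.map wd` are standard families (`Std.refl` for
equal members, `Multiset.Pairwise` for different ones), `indv_map`. -/
theorem qnf [Fintype α] (hn : 0 < n) (f : Fin n × Bool ↪ α) :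
    KGB.QNF (valB (fam n f)) (fun A B => Std n (wd A) (wd B)) (fun A => wt n (wd A)) := by
  have hwd : ∀ (T : Finset ℕ) (hT : IsWord n T),
      wd (⟨(bs n T).map f, T, hT, rfl⟩ : {B // B ∈ fam n f}) = T := by
    intro T hT
    refine bs_inj hn (wd_word _) hT ?_
    have h1 := wd_eq (⟨(bs n T).map f, T, hT, rfl⟩ : {B // B ∈ fam n f})
    exact (Finset.map_injective f h1).symm
  have hval : ∀ (A : {B // B ∈ fam n f}) (e : Fin n × Bool),
      valB (fam n f) A (f e) = val n (wd A) e := by
    intro A e
    unfold valB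
    rw [wd_eq A, indv_map]
  have hval0 : ∀ (A : {B // B ∈ fam n f}) (i : α), (∀ e, f e ≠ i) → valB (fam n f) A i = 0 := by
    intro A i hi
    unfold valB
    rw [wd_eq A, indv_map_of hi]
  refine ⟨fun A B h => h.symm, fun A B h => ?_, fun s t hs ht h => ?_⟩
  · obtain ⟨C, D, hC, hD, h1, h2⟩ := red (wd_word A) (wd_word B) h
    refine ⟨⟨(bs n C).map f, C, hC, rfl⟩, ⟨(bs n D).map f, D, hD, rfl⟩, ?_, ?_⟩
    · funext i
      rw [Pi.add_apply, Pi.add_apply]
      by_cases hi : ∃ e, f e = i
      · obtain ⟨e, rfl⟩ := hi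
        rw [hval, hval, hval, hval, hwd C hC, hwd D hD, h1]
      · rw [not_exists] at hi
        rw [hval0 _ _ hi, hval0 _ _ hi, hval0 _ _ hi, hval0 _ _ hi]
    · rw [hwd C hC, hwd D hD]
      exact h2
  · have hfam : ∀ s : Multiset {B // B ∈ fam n f},
        s.Pairwise (fun A B => Std n (wd A) (wd B)) → Fam n (s.map wd) := by
      intro s hs
      refine ⟨fun T hT => ?_, fun A hA B hB => ?_⟩
      · obtain ⟨B, _, rfl⟩ := Multiset.mem_map.1 hT
        exact wd_word B
      · obtain ⟨A', hA', rfl⟩ := Multiset.mem_map.1 hA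
        obtain ⟨B', hB', rfl⟩ := Multiset.mem_map.1 hB
        by_cases hAB : A' = B'
        · rw [hAB]
          exact Std.refl n _
        · have : _root_.Std.Symm fun A B : {B // B ∈ fam n f} => Std n (wd A) (wd B) :=
            ⟨fun _ _ h => h.symm⟩
          exact hs.forall hA' hB' hAB
    have hsum : ∀ e, ((s.map wd).map fun T => val n T e).sum =
        ((t.map wd).map fun T => val n T e).sum := by
      intro e
      rw [Multiset.map_map, Multiset.map_map]
      have h1 := congrArg (Pi.evalAddMonoidHom (fun _ : α => ℤ) (f e)) h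
      rw [map_multiset_sum, map_multiset_sum, Multiset.map_map, Multiset.map_map] at h1
      have h2 : (fun T => val n T e) ∘ wd =
          Pi.evalAddMonoidHom (fun _ : α => ℤ) (f e) ∘ valB (fam n f) :=
        funext fun A => (hval A e).symm
      rw [h2]
      exact h1
    have h1 := uniq hn (hfam s hs) (hfam t ht) hsum
    have h2 : Function.Injective (wd : {B // B ∈ fam n f} → Finset ℕ) := by
      intro A B hAB
      apply Subtype.ext
      rw [wd_eq A, wd_eq B, hAB]
    exact Multiset.map_injective h2 h1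

theorem lin_fam (K : Type*) [Field K] [Fintype α] (hn : 0 < n) (f : Fin n × Bool ↪ α) :
    Lin K (fam n f) := by
  refine KGB.lin_of_qnf (r := n) hn.ne' ?_ (qnf hn f) K
  rintro _ ⟨T, hT, rfl⟩
  rw [Finset.card_map, card_bs hT]

end KWh
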