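import Pool.Agent.KWh.Key

set_option autoImplicit false

/-! Standard families. -/

namespace KWh

/-- A multiset of words, all pairs standard. -/
def Fam (n : ℕ) (s : Multiset (Finset ℕ)) : Prop :=
  (∀ T ∈ s, IsWord n T) ∧ ∀ A ∈ s, ∀ B ∈ s, Std n A B

/-- The number of members which contain the cell `u`. -/
noncomputable def SS (s : Multiset (Finset ℕ)) (u : ℕ) : ℕ := s.countP fun T => u ∈ T

/-- Equal exponent vectors. -/
def Same (n : ℕ) (s s' : Multiset (Finset ℕ)) : Prop :=
  ∀ e, (s.map fun T => val n T e).sum = (s'.map fun T => val n T e).sum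

theorem Same.symm {n : ℕ} {s s' : Multiset (Finset ℕ)} (h : Same n s s') : Same n s' s :=
  fun e => (h e).symm

end KWh
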