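import Pool.Agent.KWh.Ty

set_option autoImplicit false

/-!
PACKAGE KWh-KEY. Histories as binary numbers.
-/

namespace KWh

variable {n : ℕ} {T A B : Finset ℕ}

/-- PROOF. The filter for `t + 1` is the one for `t` and possibly `t + 1`. -/
theorem hs_succ (T : Finset ℕ) (t : ℕ) :
    hs T (t + 1) = hs T t + if t + 1 ∈ T then 2 ^ (t + 1) else 0 := by
  unfold hs
  rw [Finset.sum_filter, Finset.sum_filter]
  have h : ∀ u ∈ T, (if u ≤ t + 1 then 2 ^ u else 0) =
      (if u ≤ t then 2 ^ u else 0) + (if u = t + 1 then 2 ^ (t + 1) else 0) := by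
    intro u _
    by_cases h1 : u ≤ t
    · rw [if_pos h1, if_pos (by omega), if_neg (by omega), add_zero]
    · by_cases h2 : u = t + 1
      · rw [if_neg h1, if_pos (by omega), if_pos h2, zero_add, h2]
      · rw [if_neg h1, if_neg (by omega), if_neg h2]
  rw [Finset.sum_congr rfl h, Finset.sum_add_distrib, Finset.sum_ite_eq' T (t + 1)]

private theorem hs_zero (T : Finset ℕ) : hs T 0 = if 0 ∈ T then 1 else 0 := by
  unfold hs
  rw [Finset.sum_filter]
  have h : ∀ u ∈ T, (if u ≤ 0 then 2 ^ u else 0) = (if u = 0 then 1 else 0) := by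
    intro u _
    by_cases h1 : u = 0
    · rw [if_pos (by omega), if_pos h1, h1, pow_zero]
    · rw [if_neg (by omega), if_neg h1]
  rw [Finset.sum_congr rfl h, Finset.sum_ite_eq' T 0]

/-- PROOF. `∑ u ∈ range (t + 1), 2 ^ u < 2 ^ (t + 1)` (`Nat.geomSum_lt` or induction with
`hs_succ`). -/
theorem hs_lt_pow (T : Finset ℕ) (t : ℕ) : hs T t < 2 ^ (t + 1) := by
  induction t with
  | zero =>
    rw [hs_zero]
    split_ifs <;> norm_num
  | succ t ih =>
    rw [hs_succ, pow_succ 2 (t + 1)]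
    split_ifs <;> omega

/-- PROOF. Induction on `t`: for `t = v`: `hs B v < 2 ^ v ≤ hs A v` (`v = 0`: `hs B 0 = 0`;
`v = w + 1`: `hs_succ`, `hs_lt_pow B w`). Step: `hs_succ`, the cells `t + 1` agree. -/
theorem hs_lt_of {v t : ℕ} (hvt : v ≤ t) (hA : v ∈ A) (hB : v ∉ B)
    (h : ∀ u, v < u → u ≤ t → (u ∈ A ↔ u ∈ B)) : hs B t < hs A t := by
  induction t, hvt using Nat.le_induction with
  | base =>
    cases v with
    | zero =>
      rw [hs_zero, hs_zero, if_neg hB, if_pos hA]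
      exact Nat.zero_lt_one
    | succ w =>
      rw [hs_succ, hs_succ, if_neg hB, if_pos hA]
      have := hs_lt_pow B w
      omega
  | succ t hvt ih =>
    have h1 := ih fun u hu hu' => h u hu (by omega)
    have h2 := h (t + 1) (by omega) le_rfl
    rw [hs_succ, hs_succ]
    by_cases h3 : t + 1 ∈ A
    · rw [if_pos h3, if_pos (h2.1 h3)]
      omega
    · rw [if_neg h3, if_neg (fun h4 => h3 (h2.2 h4))]
      omega

theorem hs_congr {t : ℕ} (h : ∀ u ≤ t, (u ∈ A ↔ u ∈ B)) : hs A t = hs B t := by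
  unfold hs
  refine Finset.sum_congr (Finset.ext fun u => ?_) fun _ _ => rfl
  rw [Finset.mem_filter, Finset.mem_filter]
  exact ⟨fun h1 => ⟨(h u h1.2).1 h1.1, h1.2⟩, fun h1 => ⟨(h u h1.2).2 h1.1, h1.2⟩⟩

theorem key_congr {t : ℕ} (h : ∀ u ≤ t, (u ∈ A ↔ u ∈ B)) (hty : ty n A = ty n B) :
    key n A t = key n B t := by
  unfold key
  rw [hs_congr h, hty]

/-- PROOF. `hs_lt_of`, `ty_lt hB`. -/
theorem key_lt_of {v t : ℕ} (hwB : IsWord n B) (hvt : v ≤ t) (hA : v ∈ A) (hB : v ∉ B)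
    (h : ∀ u, v < u → u ≤ t → (u ∈ A ↔ u ∈ B)) : key n B t < key n A t := by
  have h1 := hs_lt_of hvt hA hB h
  have h2 := ty_lt hwB
  have h3 : (2 * n + 1) * (hs B t + 1) ≤ (2 * n + 1) * hs A t := Nat.mul_le_mul_left _ h1
  rw [mul_add, mul_one] at h3
  unfold key
  omega

private theorem hs_inj {t : ℕ} (h : hs A t = hs B t) : ∀ u ≤ t, (u ∈ A ↔ u ∈ B) := by
  induction t with
  | zero =>
    intro u hu
    have hu0 : u = 0 := by omega
    subst hu0
    rw [hs_zero, hs_zero] at h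
    by_cases h1 : 0 ∈ A
    · by_cases h2 : 0 ∈ B
      · exact ⟨fun _ => h2, fun _ => h1⟩
      · rw [if_pos h1, if_neg h2] at h
        omega
    · by_cases h2 : 0 ∈ B
      · rw [if_neg h1, if_pos h2] at h
        omega
      · exact ⟨fun h3 => absurd h3 h1, fun h3 => absurd h3 h2⟩
  | succ t ih =>
    rw [hs_succ, hs_succ] at h
    have hA := hs_lt_pow A t
    have hB := hs_lt_pow B t
    have key : (t + 1 ∈ A ↔ t + 1 ∈ B) ∧ hs A t = hs B t := by
      by_cases h1 : t + 1 ∈ A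
      · by_cases h2 : t + 1 ∈ B
        · rw [if_pos h1, if_pos h2] at h
          exact ⟨⟨fun _ => h2, fun _ => h1⟩, by omega⟩
        · rw [if_pos h1, if_neg h2] at h
          omega
      · by_cases h2 : t + 1 ∈ B
        · rw [if_neg h1, if_pos h2] at h
          omega
        · rw [if_neg h1, if_neg h2] at h
          exact ⟨⟨fun h3 => absurd h3 h1, fun h3 => absurd h3 h2⟩, by omega⟩
    intro u hu
    rcases Nat.lt_or_ge t u with h3 | h3
    · have hu1 : u = t + 1 := by omega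
      rw [hu1]
      exact key.1
    · exact ih key.2 u h3

/-- PROOF. Division with remainder by `2 * n + 1` (`ty_lt`); if the histories were different, let `v`
be the last cell `≤ t` where they differ, `hs_lt_of`. -/
theorem key_inj {t : ℕ} (hA : IsWord n A) (hB : IsWord n B) (h : key n A t = key n B t) :
    (∀ u ≤ t, (u ∈ A ↔ u ∈ B)) ∧ ty n A = ty n B := by
  have h1 := ty_lt hA
  have h2 := ty_lt hB
  unfold key at h
  have h3 : hs A t = hs B t := by
    have e1 : ((2 * n + 1) * hs A t + ty n A) / (2 * n + 1) = hs A t := by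
      rw [Nat.mul_add_div (by omega), Nat.div_eq_of_lt h1, add_zero]
    have e2 : ((2 * n + 1) * hs B t + ty n B) / (2 * n + 1) = hs B t := by
      rw [Nat.mul_add_div (by omega), Nat.div_eq_of_lt h2, add_zero]
    rw [← e1, ← e2, h]
  rw [h3] at h
  exact ⟨hs_inj h3, by omega⟩

/-- PROOF. `hs_lt_pow`, `ty_lt`: `(2 n + 1) (2 ^ (t + 1) - 1) + 2 n < (2 n + 1) 2 ^ (t + 1)`. -/
theorem key_lt_MM {t : ℕ} (hT : IsWord n T) (ht : t ≤ 2 * n) : key n T t < MM n := by
  have h1 := hs_lt_pow T t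
  have h2 := ty_lt hT
  have h3 : 2 ^ (t + 1) ≤ 2 ^ (2 * n + 1) := Nat.pow_le_pow_right (by norm_num) (by omega)
  have h4 : (2 * n + 1) * (hs T t + 1) ≤ (2 * n + 1) * 2 ^ (2 * n + 1) :=
    Nat.mul_le_mul_left _ (by omega)
  rw [mul_add, mul_one] at h4
  unfold key MM
  omega

end KWh
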