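import Pool.Agent.KWh.SplA
import Pool.Agent.KWh.Nr

set_option autoImplicit false

/-!
PACKAGE KWh-SPL. Splitting a cyclic sequence with two or more blocks.
-/

namespace KWh

variable {n : ℕ} {A B C D P Q : Finset ℕ}

/-- PROOF. Let `c < c'` be two rises. Then `c`, `c'` are not in `D`, `c + 1` is a cell of `D`
between them and `c' + 1` is a cell of `D` after `c'`. `split_at`; `P` and `Q` are not empty and
miss `c`. -/
theorem split (hD : IsPre n D) (h : 2 ≤ nr n D) : ∃ P Q, IsWord n P ∧ IsWord n Q ∧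
    (∀ e, val n P e + val n Q e = val n D e + val n ∅ e) ∧ ty n P + ty n Q = ty n D := by
  obtain ⟨c, c', hcc, hc', h1, h1', h2, h2'⟩ : ∃ c c', c < c' ∧ c' + 1 ≤ 2 * n ∧ c ∉ D ∧
      c + 1 ∈ D ∧ c' ∉ D ∧ c' + 1 ∈ D := by
    unfold nr at h
    obtain ⟨a, ha, b, hb, hab⟩ := Finset.one_lt_card.1 (Nat.lt_of_succ_le h)
    rw [Finset.mem_filter, Finset.mem_range] at ha hb
    rcases Nat.lt_or_gt_of_ne hab with h3 | h3
    · exact ⟨a, b, h3, hb.1, ha.2.1, ha.2.2, hb.2.1, hb.2.2⟩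
    · exact ⟨b, a, h3, ha.1, hb.2.1, hb.2.2, ha.2.1, ha.2.2⟩
  have hne : c + 1 ≠ c' := fun e => h2 (e ▸ h1')
  obtain ⟨hP, hQ, hv, ht⟩ := split_at hD hcc (by omega : c' ≤ 2 * n) h1 h2 rfl rfl
  refine ⟨_, _, ⟨hP, ⟨c' + 1, hc', ?_⟩, c, by omega, ?_⟩, ⟨hQ, ⟨c + 1, by omega, ?_⟩, c, by omega,
    ?_⟩, hv, ht⟩
  · rw [Finset.mem_filter]
    exact ⟨h2', Or.inr (Nat.lt_succ_self _)⟩
  · rw [Finset.mem_filter]
    exact fun h3 => h1 h3.1
  · rw [Finset.mem_filter]
    exact ⟨h1', by omega, by omega⟩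
  · rw [Finset.mem_filter]
    exact fun h3 => h1 h3.1

/-- PROOF. `val n C = val n ∅` for the constant sequence `C`; `nr n D = nr n A + nr n B ≥ 2`
(`nr_eq`, `hv`, the constant sequence has no rise, `nr_pos`); `split`. -/
theorem full_split (hA : IsWord n A) (hB : IsWord n B) (hD : IsPre n D)
    (hC : ∀ u ≤ 2 * n, u ∈ C) (hv : ∀ e, val n C e + val n D e = val n A e + val n B e) :
    ∃ P Q, IsWord n P ∧ IsWord n Q ∧ (∀ e, val n P e + val n Q e = val n A e + val n B e) ∧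
      ty n P + ty n Q = ty n D := by
  have hct : ∀ i : Fin n, val n C (i, true) = 0 := by
    intro i
    have h1 : 2 * i.val ∈ C := hC _ (by have := i.2; omega)
    simp [val, h1]
  have hcf : ∀ i : Fin n, val n C (i, false) = 1 := by
    intro i
    have h1 : 2 * i.val + 2 ∈ C := hC _ (by have := i.2; omega)
    simp [val, h1]
  have hce : ∀ e, val n C e = val n ∅ e := by
    rintro ⟨i, b⟩
    cases b with
    | true =>
      rw [hct]
      simp [val]
    | false =>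
      rw [hcf]
      simp [val]
  have hnr : ((nr n D : ℕ) : ℤ) = nr n A + nr n B := by
    rw [nr_eq hD, nr_eq hA.toIsPre, nr_eq hB.toIsPre, ← Finset.sum_add_distrib]
    refine Finset.sum_congr rfl fun i _ => ?_
    have := hv (i, true)
    rw [hct, zero_add] at this
    exact this
  have h2 : 2 ≤ nr n D := by
    have hA1 := nr_pos hA
    have hB1 := nr_pos hB
    omega
  obtain ⟨P, Q, hP, hQ, hpq, ht⟩ := split hD h2
  refine ⟨P, Q, hP, hQ, fun e => ?_, ht⟩
  rw [hpq, ← hv, hce, add_comm]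

end KWh
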