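import Pool.Agent.KWh.Defs

set_option autoImplicit false

/-!
PACKAGE KWh-SW. The exchange of a segment.
-/

namespace KWh

variable {n : ℕ} {A B : Finset ℕ}

/-- the steps of the two exchanged sequences are those of `A` and `B` in some order -/
private theorem step_Sw {u v : ℕ} (hu : 1 ≤ u) (huv : u ≤ v)
    (h1 : u - 1 ∈ A ↔ u - 1 ∈ B) (h2 : v ∈ A ↔ v ∈ B) (t : ℕ) :
    ((t ∈ sw A B u v ↔ t ∈ A) ∧ (t + 1 ∈ sw A B u v ↔ t + 1 ∈ A) ∧
      (t ∈ sw B A u v ↔ t ∈ B) ∧ (t + 1 ∈ sw B A u v ↔ t + 1 ∈ B)) ∨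
    ((t ∈ sw A B u v ↔ t ∈ B) ∧ (t + 1 ∈ sw A B u v ↔ t + 1 ∈ B) ∧
      (t ∈ sw B A u v ↔ t ∈ A) ∧ (t + 1 ∈ sw B A u v ↔ t + 1 ∈ A)) := by
  simp only [mem_sw]
  by_cases ha : u ≤ t ∧ t < v
  · right
    simp only [if_pos ha]
    by_cases hb : t + 1 < v
    · have hc : u ≤ t + 1 ∧ t + 1 < v := ⟨by omega, hb⟩
      simp only [if_pos hc, and_true]
    · have hc : ¬ (u ≤ t + 1 ∧ t + 1 < v) := fun h => hb h.2
      have hd : t + 1 = v := by omega
      rw [if_neg hc, if_neg hc, hd]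
      simp only [h2, and_self, true_and]
  · by_cases hc : u ≤ t + 1 ∧ t + 1 < v
    · right
      have hd : u - 1 = t := by omega
      rw [hd] at h1
      simp only [if_neg ha, if_pos hc, h1, true_and]
    · left
      simp only [if_neg ha, if_neg hc, true_and]

/-- PROOF. `mem_sw`; the steps `t` with `t + 1 < u` or `t ≥ v` are steps of `A`, those with `u ≤ t`,
`t + 1 < v` are steps of `B`; for `t + 1 = u` the cell `t` agrees (`h1`), so it is a step of `B`;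
for `t + 1 = v` the cell `v` agrees (`h2`), so it is a step of `B` (if `u ≤ t`) or of `A` (if
`u = v`). -/
theorem sw_pre (hA : IsPre n A) (hB : IsPre n B) {u v : ℕ} (hu : 1 ≤ u) (huv : u ≤ v)
    (hv : v ≤ 2 * n) (h1 : u - 1 ∈ A ↔ u - 1 ∈ B) (h2 : v ∈ A ↔ v ∈ B) : IsPre n (sw A B u v) := by
  refine ⟨?_, ?_, ?_, ?_⟩
  · intro x hx
    rw [mem_sw] at hx
    split_ifs at hx with h
    · exact hB.le x hx
    · exact hA.le x hx
  · have h3 : ¬ (u ≤ 0 ∧ 0 < v) := by omega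
    have h4 : ¬ (u ≤ 2 * n ∧ 2 * n < v) := by omega
    rw [mem_sw, mem_sw, if_neg h3, if_neg h4]
    exact hA.cyc
  · intro t ht he hm
    rcases step_Sw hu huv h1 h2 t with ⟨h3, h4, -, -⟩ | ⟨h3, h4, -, -⟩
    · exact h4.2 (hA.up t ht he (h3.1 hm))
    · exact h4.2 (hB.up t ht he (h3.1 hm))
  · intro t ht he hm
    rcases step_Sw hu huv h1 h2 t with ⟨h3, h4, -, -⟩ | ⟨h3, h4, -, -⟩
    · exact h3.2 (hA.down t ht he (h4.1 hm))
    · exact h3.2 (hB.down t ht he (h4.1 hm))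

/-- PROOF. As `sw_pre`: the two steps of `sw A B u v` and `sw B A u v` are those of `A` and `B` in
some order. -/
theorem sw_val (hA : IsPre n A) (hB : IsPre n B) {u v : ℕ} (hu : 1 ≤ u) (huv : u ≤ v)
    (hv : v ≤ 2 * n) (h1 : u - 1 ∈ A ↔ u - 1 ∈ B) (h2 : v ∈ A ↔ v ∈ B) (e : Fin n × Bool) :
    val n (sw A B u v) e + val n (sw B A u v) e = val n A e + val n B e := by
  obtain ⟨i, b⟩ := e
  cases b with
  | true =>
    unfold val
    simp only [if_true]
    rcases step_Sw hu huv h1 h2 (2 * i.val) with ⟨h3, h4, h5, h6⟩ | ⟨h3, h4, h5, h6⟩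
    · simp only [h3, h4, h5, h6]
    · simp only [h3, h4, h5, h6]
      exact add_comm _ _
  | false =>
    unfold val
    simp only [Bool.false_eq_true, if_false]
    have h7 : 2 * i.val + 2 = 2 * i.val + 1 + 1 := rfl
    rw [h7]
    rcases step_Sw hu huv h1 h2 (2 * i.val + 1) with ⟨h3, h4, h5, h6⟩ | ⟨h3, h4, h5, h6⟩
    · simp only [h3, h4, h5, h6]
    · simp only [h3, h4, h5, h6]
      exact add_comm _ _

end KWh
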