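import Pool.Agent.KWh.Key

set_option autoImplicit false

/-!
PACKAGE KWh-WT. Comparison of weights.
-/

namespace KWh

variable {n : ℕ} {A B C D T : Finset ℕ}

theorem ch_le (n : ℕ) (T : Finset ℕ) (t : ℕ) : ch n T t ≤ key n T t := by
  unfold ch
  split_ifs
  · exact Nat.zero_le _
  · exact le_rfl

private theorem ch_lt (hT : IsWord n T) {x : ℕ} (hx : x < 2 * n) : ch n T x ≤ MM n :=
  (ch_le n T x).trans (key_lt_MM hT hx.le).le

private theorem tail_aux {g : ℕ → ℕ} (hg : ∀ x < 2 * n, g x ≤ 2 * MM n) :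
    ∀ k ≤ 2 * n, ∑ x ∈ (Finset.range (2 * n)).filter (fun x => 2 * n - k ≤ x),
      KK n ^ (2 * n - x) * g x < KK n ^ (k + 1) := by
  intro k
  induction k with
  | zero =>
    intro _
    have h1 : (Finset.range (2 * n)).filter (fun x => 2 * n - 0 ≤ x) = ∅ := by
      ext x
      simp only [Finset.mem_filter, Finset.mem_range, Finset.notMem_empty, iff_false]
      omega
    rw [h1, Finset.sum_empty, zero_add, pow_one]
    unfold KK
    omega
  | succ k ih =>
    intro hk
    have h0 := ih (by omega)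
    have h1 : (Finset.range (2 * n)).filter (fun x => 2 * n - (k + 1) ≤ x) =
        insert (2 * n - (k + 1)) ((Finset.range (2 * n)).filter (fun x => 2 * n - k ≤ x)) := by
      ext x
      simp only [Finset.mem_filter, Finset.mem_range, Finset.mem_insert]
      omega
    have h2 : 2 * n - (k + 1) ∉ (Finset.range (2 * n)).filter (fun x => 2 * n - k ≤ x) := by
      simp only [Finset.mem_filter, Finset.mem_range]
      omega
    rw [h1, Finset.sum_insert h2]
    have h3 : 2 * n - (2 * n - (k + 1)) = k + 1 := by omega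
    rw [h3]
    have h4 : KK n ^ (k + 1) * g (2 * n - (k + 1)) ≤ KK n ^ (k + 1) * (2 * MM n) :=
      Nat.mul_le_mul_left _ (hg _ (by omega))
    have h5 : KK n ^ (k + 1 + 1) = KK n ^ (k + 1) * (2 * MM n) + 2 * KK n ^ (k + 1) := by
      rw [pow_succ (KK n) (k + 1)]
      conv_lhs => rw [show KK n = 2 * MM n + 2 from rfl]
      rw [show (2 * MM n + 2) ^ (k + 1) = KK n ^ (k + 1) from rfl]
      ring
    omega

private theorem ch_congr {x t : ℕ} (hx : x < t) (hty : ty n C = ty n A)
    (h : ∀ u ≤ t, (u ∈ C ↔ u ∈ A)) : ch n C x = ch n A x := by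
  have h1 := h x hx.le
  have h2 := h (x + 1) hx
  have h3 : key n C x = key n A x := key_congr (fun u hu => h u (by omega)) hty
  unfold ch
  rw [h3, hty]
  have h4 : ((x ∈ C ↔ x + 1 ∈ C) ∨ ty n A = x + 1) ↔ ((x ∈ A ↔ x + 1 ∈ A) ∨ ty n A = x + 1) := by
    rw [h1, h2]
  by_cases h5 : (x ∈ A ↔ x + 1 ∈ A) ∨ ty n A = x + 1
  · rw [if_pos (h4.2 h5), if_pos h5]
  · rw [if_neg (fun h6 => h5 (h4.1 h6)), if_neg h5]

private theorem wt_add (A B : Finset ℕ) : wt n A + wt n B = KK n ^ (2 * n + 2) * (ty n A + ty n B) +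
    ∑ t ∈ Finset.range (2 * n), KK n ^ (2 * n - t) * (ch n A t + ch n B t) := by
  unfold wt
  simp only [mul_add, Finset.sum_add_distrib]
  ring

/-- PROOF. `ch ≤ key < MM` (`key_lt_MM`), `K = 2 * MM + 2`, geometric sum: for every `m`,
`∑ j ∈ range m, K ^ (j + 1) * (2 * MM) < K ^ (m + 1)` (induction on `m`), and the terms `t' ≥ t`
have the exponents `2 n - t' ∈ [1, 2 n - t]`. -/
theorem tail_lt (hA : IsWord n A) (hB : IsWord n B) (t : ℕ) :
    ∑ x ∈ (Finset.range (2 * n)).filter (fun x => t ≤ x),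
      KK n ^ (2 * n - x) * (ch n A x + ch n B x) < KK n ^ (2 * n - t + 1) := by
  have hg : ∀ x < 2 * n, ch n A x + ch n B x ≤ 2 * MM n := by
    intro x hx
    have h1 := ch_lt hA hx
    have h2 := ch_lt hB hx
    omega
  rcases Nat.lt_or_ge (2 * n) t with h | h
  · have h1 : (Finset.range (2 * n)).filter (fun x => t ≤ x) = ∅ := by
      ext x
      simp only [Finset.mem_filter, Finset.mem_range, Finset.notMem_empty, iff_false]
      omega
    rw [h1, Finset.sum_empty]
    have h2 : 0 < KK n := by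
      unfold KK
      omega
    positivity
  · have h1 := tail_aux hg (2 * n - t) (by omega)
    have h2 : 2 * n - (2 * n - t) = t := by omega
    rw [h2] at h1
    exact h1

/-- PROOF. The sums over the steps are `< K ^ (2 n + 1) ≤ K ^ (2 n + 2)` (`tail_lt` with `t = 0`). -/
theorem wt_ty (hA : IsWord n A) (hB : IsWord n B) (hC : IsWord n C) (hD : IsWord n D)
    (h : ty n C + ty n D < ty n A + ty n B) : wt n C + wt n D < wt n A + wt n B := by
  have h1 := tail_lt hC hD 0
  have h2 : (Finset.range (2 * n)).filter (fun x => 0 ≤ x) = Finset.range (2 * n) :=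
    Finset.filter_true_of_mem fun x _ => Nat.zero_le x
  rw [h2, Nat.sub_zero] at h1
  have h3 : KK n ^ (2 * n + 1) ≤ KK n ^ (2 * n + 2) := by
    refine Nat.pow_le_pow_right ?_ (by omega)
    unfold KK
    omega
  have h4 : KK n ^ (2 * n + 2) * (ty n C + ty n D + 1) ≤
      KK n ^ (2 * n + 2) * (ty n A + ty n B) := Nat.mul_le_mul_left _ h
  rw [mul_add, mul_one] at h4
  rw [wt_add, wt_add]
  omega

/-- PROOF. The terms with `x < t` are equal: `ch n C x = ch n A x` since the cells `≤ x + 1 ≤ t` and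
`ty` agree (`key_congr`). The term `t` is smaller by at least `K ^ (2 n - t)`; the terms `x > t` of
`C` and `D` have a sum `< K ^ (2 n - t)` (`tail_lt` with `t + 1`; for `t + 1 = 2 n` there are none). -/
theorem wt_lex (hA : IsWord n A) (hB : IsWord n B) (hC : IsWord n C) (hD : IsWord n D) {t : ℕ}
    (ht : t < 2 * n) (h1 : ty n C = ty n A) (h2 : ty n D = ty n B)
    (h3 : ∀ u ≤ t, (u ∈ C ↔ u ∈ A)) (h4 : ∀ u ≤ t, (u ∈ D ↔ u ∈ B))
    (h : ch n C t + ch n D t < ch n A t + ch n B t) : wt n C + wt n D < wt n A + wt n B := by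
  have hsp : ∀ f : ℕ → ℕ, ∑ x ∈ Finset.range (2 * n), f x =
      ∑ x ∈ Finset.range t, f x + f t +
        ∑ x ∈ (Finset.range (2 * n)).filter (fun x => t + 1 ≤ x), f x := by
    intro f
    have e1 : Finset.range (2 * n) =
        Finset.range (t + 1) ∪ (Finset.range (2 * n)).filter (fun x => t + 1 ≤ x) := by
      ext x
      simp only [Finset.mem_filter, Finset.mem_range, Finset.mem_union]
      omega
    have e2 : Disjoint (Finset.range (t + 1))
        ((Finset.range (2 * n)).filter (fun x => t + 1 ≤ x)) := by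
      rw [Finset.disjoint_left]
      intro x hx
      simp only [Finset.mem_filter, Finset.mem_range] at hx ⊢
      omega
    conv_lhs => rw [e1]
    rw [Finset.sum_union e2, Finset.sum_range_succ]
  rw [wt_add, wt_add, hsp, hsp fun x => KK n ^ (2 * n - x) * (ch n A x + ch n B x), h1, h2]
  have h5 : ∑ x ∈ Finset.range t, KK n ^ (2 * n - x) * (ch n C x + ch n D x) =
      ∑ x ∈ Finset.range t, KK n ^ (2 * n - x) * (ch n A x + ch n B x) := by
    refine Finset.sum_congr rfl fun x hx => ?_
    rw [ch_congr (Finset.mem_range.1 hx) h1 h3, ch_congr (Finset.mem_range.1 hx) h2 h4]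
  rw [h5]
  have h6 := tail_lt hC hD (t + 1)
  have h7 : 2 * n - (t + 1) + 1 = 2 * n - t := by omega
  rw [h7] at h6
  have h8 : KK n ^ (2 * n - t) * (ch n C t + ch n D t + 1) ≤
      KK n ^ (2 * n - t) * (ch n A t + ch n B t) := Nat.mul_le_mul_left _ h
  rw [mul_add, mul_one] at h8
  omega

end KWh
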