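import Pool.Agent.KWh.Agr
import Pool.Agent.KWh.Sw
import Pool.Agent.KWh.Spl
import Pool.Agent.KWh.Wt

set_option autoImplicit false

/-!
PACKAGE KWh-RED2. Second reduction: `A` falls, `B` does not and is not in its final block, and the key
of `A` is larger.
-/

namespace KWh

variable {n : ℕ} {A B : Finset ℕ}

/-- PROOF. `t ∈ B` (`hB.down`).  `right_agree` at `t + 1`.  Second alternative: `ty_eq`-like reasoning
excludes it: all cells `≥ t` are in `B`, so `0 < ty n B` and `ty n B ≤ t` (`ty_le_of`), contrary to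
`h5`.  So there is `v`.  `C = sw A B (t + 1) v`, `D = sw B A (t + 1) v`; `D` is a word (`t ∈ D`,
`t + 1 ∉ D`).  `ty n D = ty n B`: if `2 n ∉ B` then `2 n ∉ D` (both `0`); if `2 n ∈ B` then
`ty n B > t`, the cell `ty n B - 1` is missing in `B`, so it is neither `t` nor in `[t + 1, v)`, so it
is `≥ v`: `ty_congr`.
Case 1, some cell `x ∈ [v, 2 n]` is not in `A`: `C` is a word, `ty n C = ty n A` (`ty_congr`), and
`wt_lex` with `t`: `ch n C t = 0 = ch n B t`, `ch n D t ≤ key n D t = key n B t` (`ch_le`,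
`key_congr`), `ch n A t = key n A t` (`ty n A ≠ t + 1` since `t + 1 ∉ A`, `ty_spec`).
Case 2, all cells `≥ v` are in `A`: `v - 1 ∉ A`, so `ty n A = v` (`ty_eq`).  All cells `≥ t` are in
`C`.  If `C` has a missing cell it is a word with `ty n C ≤ t < v` (`ty_le_of`): `wt_ty`.  Otherwise
`full_split`: `P`, `Q` with `ty n P + ty n Q = ty n D = ty n B < ty n A + ty n B`: `wt_ty`. -/
theorem red_two (hA : IsWord n A) (hB : IsWord n B) {t : ℕ} (ht : t < 2 * n) (ho : Odd t)
    (h1 : t ∈ A) (h2 : t + 1 ∉ A) (h3 : t + 1 ∈ B) (h5 : ¬ (0 < ty n B ∧ ty n B ≤ t))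
    (h4 : key n B t < key n A t) :
    ∃ C D, IsWord n C ∧ IsWord n D ∧ (∀ e, val n C e + val n D e = val n A e + val n B e) ∧
      wt n C + wt n D < wt n A + wt n B := by
  have htB : t ∈ B := hB.down t ht ho h3
  rcases right_agree hA.toIsPre hB.toIsPre (t := t + 1) (by omega) h3 h2 with
    ⟨v, hv1, hv2, hv3, hv4⟩ | hall
  swap
  · exfalso
    refine h5 ⟨ty_pos (hall (2 * n) (by omega) le_rfl).1, ty_le_of hB fun u hu hu' => ?_⟩
    rcases Nat.eq_or_lt_of_le hu with rfl | hu1
    · exact htB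
    · exact (hall u hu1 hu').1
  have htt : t + 1 - 1 ∈ A ↔ t + 1 - 1 ∈ B := by
    rw [Nat.add_sub_cancel]
    exact iff_of_true h1 htB
  have hCp : IsPre n (sw A B (t + 1) v) :=
    sw_pre hA.toIsPre hB.toIsPre (by omega) (by omega) hv2 htt hv3
  have hDp : IsPre n (sw B A (t + 1) v) :=
    sw_pre hB.toIsPre hA.toIsPre (by omega) (by omega) hv2 htt.symm hv3.symm
  have hval : ∀ e, val n (sw A B (t + 1) v) e + val n (sw B A (t + 1) v) e =
      val n A e + val n B e :=
    sw_val hA.toIsPre hB.toIsPre (by omega) (by omega) hv2 htt hv3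
  have mC : ∀ x, x ∈ sw A B (t + 1) v ↔ if t + 1 ≤ x ∧ x < v then x ∈ B else x ∈ A :=
    fun x => mem_sw
  have mD : ∀ x, x ∈ sw B A (t + 1) v ↔ if t + 1 ≤ x ∧ x < v then x ∈ A else x ∈ B :=
    fun x => mem_sw
  generalize sw A B (t + 1) v = C at hCp hval mC
  generalize sw B A (t + 1) v = D at hDp hval mD
  have htC : t ∈ C := by
    rw [mC, if_neg (by omega)]
    exact h1
  have htD : t ∈ D := by
    rw [mD, if_neg (by omega)]
    exact htB
  have ht1C : t + 1 ∈ C := by
    rw [mC, if_pos ⟨le_rfl, hv1⟩]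
    exact h3
  have ht1D : t + 1 ∉ D := by
    rw [mD, if_pos ⟨le_rfl, hv1⟩]
    exact h2
  have hDw : IsWord n D := ⟨hDp, ⟨t, by omega, htD⟩, ⟨t + 1, by omega, ht1D⟩⟩
  have htyD : ty n D = ty n B := by
    by_cases hb : 2 * n ∈ B
    · have hb0 := ty_pos hb
      obtain ⟨x, hxe, hx1, hx2, hx3, hx4⟩ := ty_spec hB hb0
      have hxt : t < x := by
        by_contra h
        have hne : x ≠ t := fun h6 => hx3 (h6 ▸ htB)
        exact h5 ⟨hb0, by omega⟩
      have hxv : v ≤ x := by
        by_contra h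
        exact hx3 (hv4 x (by omega) (by omega)).1
      refine ty_congr (v := v) (x := x) (fun u hu hu' => ?_) hxv (by omega) ?_
      · rw [mD, if_neg (by omega)]
      · rw [mD, if_neg (by omega)]
        exact hx3
    · rw [ty_zero hb, ty_zero]
      rw [mD, if_neg (by omega)]
      exact hb
  by_cases hx : ∃ x, v ≤ x ∧ x ≤ 2 * n ∧ x ∉ A
  · obtain ⟨x, hx1, hx2, hx3⟩ := hx
    have hxC : x ∉ C := by
      rw [mC, if_neg (by omega)]
      exact hx3
    have hCw : IsWord n C := ⟨hCp, ⟨t, by omega, htC⟩, ⟨x, hx2, hxC⟩⟩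
    have htyC : ty n C = ty n A := by
      refine ty_congr (v := v) (x := x) (fun u hu hu' => ?_) hx1 hx2 hxC
      rw [mC, if_neg (by omega)]
    refine ⟨C, D, hCw, hDw, hval, wt_lex hA hB hCw hDw ht htyC htyD ?_ ?_ ?_⟩
    · intro u hu
      rw [mC, if_neg (by omega)]
    · intro u hu
      rw [mD, if_neg (by omega)]
    · have e1 : ch n C t = 0 := by
        unfold ch
        rw [if_pos (Or.inl (iff_of_true htC ht1C))]
      have e2 : ch n B t = 0 := by
        unfold ch
        rw [if_pos (Or.inl (iff_of_true htB h3))]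
      have e3 : ch n A t = key n A t := by
        unfold ch
        rw [if_neg]
        rintro (h6 | h6)
        · exact h2 (h6.1 h1)
        · obtain ⟨y, _, _, hy1, hy2, _⟩ := ty_spec hA (by omega)
          have hyt : y = t := by omega
          exact hy2 (hyt ▸ h1)
      have e4 : ch n D t ≤ key n B t := by
        refine (ch_le n D t).trans (key_congr (fun u hu => ?_) htyD).le
        rw [mD, if_neg (by omega)]
      omega
  · push Not at hx
    have htyA : ty n A = v := by
      have h6 := ty_eq (n := n) (T := A) (t := v - 1) (by omega)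
        (hv4 (v - 1) (by omega) (by omega)).2 fun u hu hu' => hx u (by omega) hu'
      omega
    by_cases hC' : ∃ x ≤ 2 * n, x ∉ C
    · have hCw : IsWord n C := ⟨hCp, ⟨t, by omega, htC⟩, hC'⟩
      have htyC : ty n C ≤ t := by
        refine ty_le_of hCw fun u hu hu' => ?_
        rw [mC]
        split_ifs with h6
        · exact (hv4 u h6.1 h6.2).1
        · by_cases h7 : u = t
          · exact h7 ▸ h1
          · exact hx u (by omega) hu'
      exact ⟨C, D, hCw, hDw, hval, wt_ty hA hB hCw hDw (by omega)⟩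
    · push Not at hC'
      obtain ⟨P, Q, hP, hQ, h6, h7⟩ := full_split hA hB hDp hC' hval
      exact ⟨P, Q, hP, hQ, h6, wt_ty hA hB hP hQ (by omega)⟩

end KWh
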