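import Pool.Agent.KWh.Agr
import Pool.Agent.KWh.Sw
import Pool.Agent.KWh.Spl
import Pool.Agent.KWh.Wt

set_option autoImplicit false

/-! PACKAGE KWh-RED3. Third reduction: `A` rises (not into its final block), `B` does not, and the
key of `A` is larger. -/

namespace KWh

variable {n : ℕ} {A B : Finset ℕ}

/-- PROOF. `t ∉ B` (`hB.up`). `right_agree` at `t + 1` with the roles exchanged (`t + 1 ∈ A`, `t + 1
∉ B`). The second alternative is excluded: all cells `> t` in `A` and `t ∉ A` give `ty n A = t + 1`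
(`ty_eq`). So there is `v`. `C = sw A B (t + 1) v`, `D = sw B A (t + 1) v`; `D` is a word (`t ∉ D`,
`t + 1 ∈ D`). If `2 n ∈ A`: `ty n A ≤ t` is impossible (`t ∉ A`, `ty_spec`), so `ty n A > t + 1`;
the cell `ty n A - 1` is missing in `A` and `> t`, so it is `≥ v`. So `ty n C = ty n A`
(`ty_congr`), and `2 n ∈ C` (`v ≤ ty n A - 1 < 2 n`). If `2 n ∉ A`: `2 n ∉ C` (if `v ≤ 2 n` the cell
`2 n` is that of `A`), `ty n C = ty n A = 0`. `C` is a word: `t ∉ C`; not empty: `key n A t > 0`, so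
`ty n A > 0` (then `2 n ∈ C`) or `hs A t > 0` (some cell `≤ t` is in `A`, so in `C`). Case 1, some
cell `x ∈ [v, 2 n]` is not in `B`: `ty n D = ty n B` (`ty_congr`); `wt_lex` with `t`: `ch n C t = 0
= ch n B t`, `ch n D t ≤ key n D t = key n B t`, `ch n A t = key n A t` (`h5`). Case 2, all cells `≥
v` are in `B`: `v - 1 ∉ B`, so `ty n B = v` (`ty_eq`), and `ty n D = t + 1 < v` (`ty_eq`): `wt_ty`.
-/
theorem red_three (hA : IsWord n A) (hB : IsWord n B) {t : ℕ} (ht : t < 2 * n) (he : Even t)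
    (h1 : t ∉ A) (h2 : t + 1 ∈ A) (h3 : t + 1 ∉ B) (h5 : ty n A ≠ t + 1)
    (h4 : key n B t < key n A t) :
    ∃ C D, IsWord n C ∧ IsWord n D ∧ (∀ e, val n C e + val n D e = val n A e + val n B e) ∧
      wt n C + wt n D < wt n A + wt n B := by
  have htB : t ∉ B := fun h => h3 (hB.up t ht he h)
  rcases right_agree hB.toIsPre hA.toIsPre (t := t + 1) ht h2 h3 with
    ⟨v, hv, hv', hag, hseg⟩ | hall
  swap
  · exact absurd (ty_eq ht h1 fun u h6 h7 => (hall u h6 h7).1) h5
  have hag' : v ∈ A ↔ v ∈ B := hag.symm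
  have htAB : t + 1 - 1 ∈ A ↔ t + 1 - 1 ∈ B := by
    rw [Nat.add_sub_cancel]
    exact ⟨fun h => absurd h h1, fun h => absurd h htB⟩
  have htBA : t + 1 - 1 ∈ B ↔ t + 1 - 1 ∈ A := htAB.symm
  set C := sw A B (t + 1) v with hC
  set D := sw B A (t + 1) v with hD
  have hCp : IsPre n C := sw_pre hA.toIsPre hB.toIsPre (by omega) (by omega) hv' htAB hag'
  have hDp : IsPre n D := sw_pre hB.toIsPre hA.toIsPre (by omega) (by omega) hv' htBA hag
  have hCl : ∀ u ≤ t, (u ∈ C ↔ u ∈ A) := fun u hu => by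
    rw [hC, mem_sw, if_neg (by omega)]
  have hCr : ∀ u, v ≤ u → (u ∈ C ↔ u ∈ A) := fun u hu => by
    rw [hC, mem_sw, if_neg (by omega)]
  have hCm : ∀ u, t + 1 ≤ u → u < v → u ∉ C := fun u hu hu' => by
    rw [hC, mem_sw, if_pos ⟨hu, hu'⟩]
    exact (hseg u hu hu').2
  have hDl : ∀ u ≤ t, (u ∈ D ↔ u ∈ B) := fun u hu => by
    rw [hD, mem_sw, if_neg (by omega)]
  have hDr : ∀ u, v ≤ u → (u ∈ D ↔ u ∈ B) := fun u hu => by
    rw [hD, mem_sw, if_neg (by omega)]
  have hDm : ∀ u, t + 1 ≤ u → u < v → u ∈ D := fun u hu hu' => by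
    rw [hD, mem_sw, if_pos ⟨hu, hu'⟩]
    exact (hseg u hu hu').1
  -- the type of `C`
  have htyC : ty n C = ty n A := by
    by_cases hA2 : 2 * n ∈ A
    · obtain ⟨t', -, ht', hty, htA, hgt⟩ := ty_spec hA (ty_pos hA2)
      have e1 : t ≤ t' := by
        by_contra hcon
        exact h1 (hgt t (by omega) ht.le)
      have e2 : t' ≠ t := by
        rintro rfl
        exact h5 hty
      have e3 : v ≤ t' := by
        by_contra hcon
        exact htA (hseg t' (by omega) (by omega)).1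
      exact ty_congr (v := v) (x := t') (fun u hu _ => hCr u hu) e3 ht'.le
        fun h => htA ((hCr t' e3).1 h)
    · rw [ty_zero hA2, ty_zero fun h => hA2 ((hCr _ hv').1 h)]
  have hCw : IsWord n C := by
    refine ⟨hCp, ?_, t, ht.le, fun h => h1 ((hCl t le_rfl).1 h)⟩
    rcases Nat.eq_zero_or_pos (ty n A) with h6 | h6
    · have h7 : 0 < hs A t := by
        rcases Nat.eq_zero_or_pos (hs A t) with h8 | h8
        · unfold key at h4
          rw [h8, h6] at h4
          omega
        · exact h8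
      unfold hs at h7
      obtain ⟨u, hu⟩ : (A.filter (· ≤ t)).Nonempty := by
        by_contra h8
        rw [Finset.not_nonempty_iff_eq_empty] at h8
        rw [h8, Finset.sum_empty] at h7
        omega
      rw [Finset.mem_filter] at hu
      exact ⟨u, by omega, (hCl u hu.2).2 hu.1⟩
    · exact ⟨2 * n, le_rfl, (hCr _ hv').2 (mem_of_ty_pos h6)⟩
  have hDw : IsWord n D := ⟨hDp, ⟨t + 1, ht, hDm _ le_rfl hv⟩, t, ht.le,
    fun h => htB ((hDl t le_rfl).1 h)⟩
  refine ⟨C, D, hCw, hDw, fun e => sw_val hA.toIsPre hB.toIsPre (by omega) (by omega) hv' htAB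
    hag' e, ?_⟩
  by_cases hx : ∃ x, v ≤ x ∧ x ≤ 2 * n ∧ x ∉ B
  · obtain ⟨x, hx1, hx2, hx3⟩ := hx
    have htyD : ty n D = ty n B := ty_congr (v := v) (x := x) (fun u hu _ => hDr u hu) hx1 hx2
      fun h => hx3 ((hDr x hx1).1 h)
    refine wt_lex hA hB hCw hDw ht htyC htyD hCl hDl ?_
    have c1 : ch n C t = 0 := by
      unfold ch
      rw [if_pos (Or.inl ⟨fun h => absurd ((hCl t le_rfl).1 h) h1,
        fun h => absurd h (hCm _ le_rfl hv)⟩)]
    have c2 : ch n B t = 0 := by
      unfold ch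
      rw [if_pos (Or.inl ⟨fun h => absurd h htB, fun h => absurd h h3⟩)]
    have c3 : ch n A t = key n A t := by
      unfold ch
      rw [if_neg]
      rintro (h | h)
      · exact h1 (h.2 h2)
      · exact h5 h
    have c4 := ch_le n D t
    have c5 : key n D t = key n B t := key_congr hDl htyD
    omega
  · push Not at hx
    have hv1 : v - 1 ∉ B := (hseg (v - 1) (by omega) (by omega)).2
    have htyB : ty n B = v - 1 + 1 := ty_eq (by omega) hv1 fun u hu hu' => hx u (by omega) hu'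
    have htyD : ty n D = t + 1 := ty_eq ht (fun h => htB ((hDl t le_rfl).1 h)) fun u hu hu' => by
      rcases Nat.lt_or_ge u v with h | h
      · exact hDm u hu h
      · exact (hDr u h).2 (hx u h hu')
    refine wt_ty hA hB hCw hDw ?_
    omega

end KWh
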