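import Pool.Agent.KWh.Red1
import Pool.Agent.KWh.Red2
import Pool.Agent.KWh.Red3

set_option autoImplicit false

/-! Every non standard pair can be replaced by a pair of smaller weight. -/

namespace KWh

variable {n : ℕ} {A B : Finset ℕ}

theorem red_ok (hA : IsWord n A) (hB : IsWord n B) (h : ¬ Ok n A B) :
    ∃ C D, IsWord n C ∧ IsWord n D ∧ (∀ e, val n C e + val n D e = val n A e + val n B e) ∧
      wt n C + wt n D < wt n A + wt n B := by
  unfold Ok at h
  rw [not_and_or] at h
  rcases h with h | h
  · push Not at h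
    obtain ⟨t, ht, he, h1, h2, h3, h4, h5⟩ := h
    exact red_three hA hB ht he h1 h2 h3 h4 h5
  · simp only [not_forall] at h
    obtain ⟨t, ht, ho, h1, h2, h3, h4⟩ := h
    rw [not_and_or] at h4
    rcases h4 with h4 | h4
    · rw [Classical.not_imp, not_not] at h4
      exact red_one hA hB ht h2 h4.1.1 h4.1.2 h4.2
    · rw [Classical.not_imp, not_le] at h4
      exact red_two hA hB ht ho h1 h2 h3 h4.1 h4.2

theorem red (hA : IsWord n A) (hB : IsWord n B) (h : ¬ Std n A B) :
    ∃ C D, IsWord n C ∧ IsWord n D ∧ (∀ e, val n C e + val n D e = val n A e + val n B e) ∧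
      wt n C + wt n D < wt n A + wt n B := by
  rcases not_and_or.1 h with h | h
  · exact red_ok hA hB h
  · obtain ⟨C, D, hC, hD, h1, h2⟩ := red_ok hB hA h
    exact ⟨C, D, hC, hD, fun e => (h1 e).trans (add_comm _ _), h2.trans_eq (add_comm _ _)⟩

end KWh
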