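import Pool.Agent.KWh.Agr
import Pool.Agent.KWh.Sw
import Pool.Agent.KWh.Spl
import Pool.Agent.KWh.Wt

set_option autoImplicit false

/-!
PACKAGE KWh-RED1. First reduction: `A` falls while `B` is in its final block, and the cell before the
final block of `B` is in `A`.
-/

namespace KWh

variable {n : ℕ} {A B : Finset ℕ}

/-- PROOF. Let `b = ty n B`; `b - 1 ∉ B`, `b - 1` is even, `b - 1 < 2 n`, all cells `≥ b` are in `B`
(`ty_spec`); `b ∈ A` (`hA.up`).  `2 n ∈ B`, so `0 ∈ B`.  `left_agree` at `b - 1` gives `u`.  Let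
`C = sw A B u b`, `D = sw B A u b` (`sw_pre`, `sw_val`, for `D` with the roles exchanged).  `C` is a
word: `b ∈ C`, `b - 1 ∉ C`.  `ty n C = ty n A` (`ty_congr` with the cell `t + 1 ≥ b`).  If `D` has a
missing cell then it is a word (`b ∈ D`) and `ty n D ≤ u < b` (`ty_le_of`): `wt_ty`.  Otherwise
`full_split` (the constant sequence is `D`, the sequence to be split is `C`) gives `P`, `Q` with
`ty n P + ty n Q = ty n C < ty n A + ty n B`: `wt_ty`. -/
theorem red_one (hA : IsWord n A) (hB : IsWord n B) {t : ℕ} (ht : t < 2 * n) (h1 : t + 1 ∉ A)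
    (h2 : 0 < ty n B) (h3 : ty n B ≤ t) (h4 : ty n B - 1 ∈ A) :
    ∃ C D, IsWord n C ∧ IsWord n D ∧ (∀ e, val n C e + val n D e = val n A e + val n B e) ∧
      wt n C + wt n D < wt n A + wt n B := by
  obtain ⟨s, hse, hs, hsty, hsB, hsu⟩ := ty_spec hB h2
  rw [hsty, Nat.add_sub_cancel] at h4
  have hst : s + 1 ≤ t := by omega
  have hbA : s + 1 ∈ A := hA.up s hs hse h4
  have hbB : s + 1 ∈ B := hsu (s + 1) (by omega) (by omega)
  have h0 : 0 ∈ B := hB.cyc.2 (hsu (2 * n) hs le_rfl)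
  obtain ⟨u, hu1, hus, hag, hx⟩ := left_agree hA.toIsPre hB.toIsPre (by omega) h4 hsB h0
  have hab : s + 1 ∈ A ↔ s + 1 ∈ B := ⟨fun _ => hbB, fun _ => hbA⟩
  have hCp : IsPre n (sw A B u (s + 1)) :=
    sw_pre hA.toIsPre hB.toIsPre hu1 (by omega) (by omega) hag hab
  have hDp : IsPre n (sw B A u (s + 1)) :=
    sw_pre hB.toIsPre hA.toIsPre hu1 (by omega) (by omega) hag.symm hab.symm
  have hval : ∀ e, val n (sw A B u (s + 1)) e + val n (sw B A u (s + 1)) e =
      val n A e + val n B e := fun e =>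
    sw_val hA.toIsPre hB.toIsPre hu1 (by omega) (by omega) hag hab e
  have hC1 : ∀ x, s + 1 ≤ x → (x ∈ sw A B u (s + 1) ↔ x ∈ A) := by
    intro x hx1
    rw [mem_sw, if_neg (by omega)]
  have hC : IsWord n (sw A B u (s + 1)) :=
    { toIsPre := hCp
      ne := ⟨s + 1, by omega, (hC1 _ le_rfl).2 hbA⟩
      pr := ⟨s, by omega, by
        rw [mem_sw, if_pos (by omega)]
        exact hsB⟩ }
  have hCty : ty n (sw A B u (s + 1)) = ty n A :=
    ty_congr (v := s + 1) (x := t + 1) (fun x hx1 _ => hC1 x hx1) (by omega) (by omega)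
      fun h5 => h1 ((hC1 _ (by omega)).1 h5)
  have hD1 : ∀ x, u ≤ x → x ≤ 2 * n → x ∈ sw B A u (s + 1) := by
    intro x hx1 hx2
    rw [mem_sw]
    split_ifs with h5
    · exact (hx x hx1 (by omega)).1
    · exact hsu x (by omega) hx2
  by_cases hD : ∃ x ≤ 2 * n, x ∉ sw B A u (s + 1)
  · have hDw : IsWord n (sw B A u (s + 1)) :=
      { toIsPre := hDp
        ne := ⟨s, by omega, hD1 s hus (by omega)⟩
        pr := hD }
    have hDty : ty n (sw B A u (s + 1)) ≤ u := ty_le_of hDw hD1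
    exact ⟨_, _, hC, hDw, hval, wt_ty hA hB hC hDw (by omega)⟩
  · have hD2 : ∀ x ≤ 2 * n, x ∈ sw B A u (s + 1) := by
      intro x hx1
      by_contra h5
      exact hD ⟨x, hx1, h5⟩
    obtain ⟨P, Q, hP, hQ, hv, hty⟩ := full_split hA hB hCp hD2 (fun e => by
      rw [add_comm]
      exact hval e)
    exact ⟨P, Q, hP, hQ, hv, wt_ty hA hB hP hQ (by omega)⟩

end KWh
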