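import Pool.Agent.KWh.Ty

set_option autoImplicit false

/-!
PACKAGE KWh-SPLA. Cutting a cyclic sequence at two missing cells.
-/

namespace KWh

variable {n : ℕ} {D P Q : Finset ℕ}

private theorem SplA_pre (hD : IsPre n D) {c c' : ℕ} (hc' : c' ≤ 2 * n) (h1 : c ∉ D)
    (h2 : c' ∉ D) : IsPre n (D.filter fun x => x < c ∨ c' < x) := by
  refine ⟨fun u hu => hD.le u (Finset.mem_filter.1 hu).1, ?_, ?_, ?_⟩
  · constructor
    · intro h
      have h0 := (Finset.mem_filter.1 h).1
      have h3 := hD.cyc.1 h0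
      have h4 : c' ≠ 2 * n := fun e => h2 (e ▸ h3)
      exact Finset.mem_filter.2 ⟨h3, Or.inr (by omega)⟩
    · intro h
      have h0 := (Finset.mem_filter.1 h).1
      have h3 := hD.cyc.2 h0
      have h4 : c ≠ 0 := fun e => h1 (e ▸ h3)
      exact Finset.mem_filter.2 ⟨h3, Or.inl (by omega)⟩
  · intro t ht he h
    obtain ⟨h0, h3⟩ := Finset.mem_filter.1 h
    have h4 := hD.up t ht he h0
    have h5 : c ≠ t + 1 := fun e => h1 (e ▸ h4)
    exact Finset.mem_filter.2 ⟨h4, by omega⟩
  · intro t ht he h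
    obtain ⟨h0, h3⟩ := Finset.mem_filter.1 h
    have h4 := hD.down t ht he h0
    have h5 : c' ≠ t := fun e => h2 (e ▸ h4)
    exact Finset.mem_filter.2 ⟨h4, by omega⟩

private theorem SplA_preQ (hD : IsPre n D) {c c' : ℕ} (hc' : c' ≤ 2 * n) (h1 : c ∉ D)
    (h2 : c' ∉ D) : IsPre n (D.filter fun x => c < x ∧ x < c') := by
  refine ⟨fun u hu => hD.le u (Finset.mem_filter.1 hu).1, ?_, ?_, ?_⟩
  · constructor
    · intro h
      have h0 := (Finset.mem_filter.1 h).2
      omega
    · intro h
      have h0 := (Finset.mem_filter.1 h).2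
      omega
  · intro t ht he h
    obtain ⟨h0, h3⟩ := Finset.mem_filter.1 h
    have h4 := hD.up t ht he h0
    have h5 : c' ≠ t + 1 := fun e => h2 (e ▸ h4)
    exact Finset.mem_filter.2 ⟨h4, by omega⟩
  · intro t ht he h
    obtain ⟨h0, h3⟩ := Finset.mem_filter.1 h
    have h4 := hD.down t ht he h0
    have h5 : c ≠ t := fun e => h1 (e ▸ h4)
    exact Finset.mem_filter.2 ⟨h4, by omega⟩

private theorem SplA_val {c c' : ℕ} (hc : c < c') (h1 : c ∉ D) (h2 : c' ∉ D)
    (e : Fin n × Bool) : val n (D.filter fun x => x < c ∨ c' < x) e +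
      val n (D.filter fun x => c < x ∧ x < c') e = val n D e + val n ∅ e := by
  obtain ⟨i, b⟩ := e
  cases b with
  | true =>
    unfold val
    simp only [Finset.mem_filter, if_true, Finset.notMem_empty, not_false_eq_true, true_and,
      if_false, add_zero]
    by_cases h3 : 2 * i.val + 1 ∈ D
    · have h4 : c ≠ 2 * i.val + 1 := fun e => h1 (e ▸ h3)
      have h5 : c' ≠ 2 * i.val + 1 := fun e => h2 (e ▸ h3)
      by_cases h6 : 2 * i.val ∈ D
      · have h7 : c ≠ 2 * i.val := fun e => h1 (e ▸ h6)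
        have h8 : c' ≠ 2 * i.val := fun e => h2 (e ▸ h6)
        simp only [h3, h6, true_and, not_true_eq_false, false_and, if_false]
        rw [if_neg (by omega), if_neg (by omega)]
        rfl
      · simp only [h3, h6, true_and, false_and, not_false_eq_true, if_true]
        by_cases h9 : 2 * i.val + 1 < c ∨ c' < 2 * i.val + 1
        · rw [if_pos h9, if_neg (by omega)]
          rfl
        · rw [if_neg h9, if_pos (by omega)]
          rfl
    · simp only [h3, false_and, and_false, if_false]
      rfl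
  | false =>
    unfold val
    simp only [Finset.mem_filter, Finset.notMem_empty, not_false_eq_true, false_and,
      if_false, Bool.false_eq_true]
    by_cases h3 : 2 * i.val + 1 ∈ D
    · have h4 : c ≠ 2 * i.val + 1 := fun e => h1 (e ▸ h3)
      have h5 : c' ≠ 2 * i.val + 1 := fun e => h2 (e ▸ h3)
      by_cases h6 : 2 * i.val + 2 ∈ D
      · have h7 : c ≠ 2 * i.val + 2 := fun e => h1 (e ▸ h6)
        have h8 : c' ≠ 2 * i.val + 2 := fun e => h2 (e ▸ h6)
        simp only [h3, h6, true_and, not_true_eq_false, and_false, if_false]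
        rw [if_neg (by omega), if_neg (by omega)]
      · simp only [h3, h6, true_and, false_and, not_false_eq_true, and_true, if_true]
        by_cases h9 : 2 * i.val + 1 < c ∨ c' < 2 * i.val + 1
        · rw [if_pos h9, if_neg (by omega)]
        · rw [if_neg h9, if_pos (by omega)]
          rfl
    · simp only [h3, false_and, if_false]

private theorem SplA_ty {c c' : ℕ} (hc' : c' ≤ 2 * n) (h2 : c' ∉ D) : ty n (D.filter fun x => x < c ∨ c' < x) = ty n D := by
  unfold ty
  by_cases h3 : 2 * n ∈ D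
  · have h4 : c' ≠ 2 * n := fun e => h2 (e ▸ h3)
    have h5 : 2 * n ∈ D.filter fun x => x < c ∨ c' < x :=
      Finset.mem_filter.2 ⟨h3, Or.inr (by omega)⟩
    rw [if_pos h3, if_pos h5]
    congr 1
    refine le_antisymm (Finset.sup_le fun t ht => ?_) (Finset.sup_mono fun t ht => ?_)
    · rw [Finset.mem_filter] at ht
      have hcm : c' ∈ (Finset.range (2 * n)).filter (· ∉ D) :=
        Finset.mem_filter.2 ⟨Finset.mem_range.2 (by omega), h2⟩
      by_cases h6 : t ∈ D
      · have h7 : ¬ (t < c ∨ c' < t) := fun h => ht.2 (Finset.mem_filter.2 ⟨h6, h⟩)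
        exact le_trans (show id t ≤ c' by simp only [id]; omega)
          (Finset.le_sup (f := id) hcm)
      · exact Finset.le_sup (f := id) (Finset.mem_filter.2 ⟨ht.1, h6⟩)
    · rw [Finset.mem_filter] at ht ⊢
      exact ⟨ht.1, fun h => ht.2 (Finset.mem_filter.1 h).1⟩
  · have h5 : 2 * n ∉ D.filter fun x => x < c ∨ c' < x :=
      fun h => h3 (Finset.mem_filter.1 h).1
    rw [if_neg h3, if_neg h5]

/-- PROOF. Step by step: `P ∪ Q = D`, the cells `c`, `c'` are not in `D`, so `P` and `Q` never rise or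
fall at the same step and every rise or fall of `D` is one of `P` or of `Q`. -/
theorem split_at (hD : IsPre n D) {c c' : ℕ} (hc : c < c') (hc' : c' ≤ 2 * n) (h1 : c ∉ D)
    (h2 : c' ∉ D) (hP : P = D.filter fun x => x < c ∨ c' < x)
    (hQ : Q = D.filter fun x => c < x ∧ x < c') : IsPre n P ∧ IsPre n Q ∧
      (∀ e, val n P e + val n Q e = val n D e + val n ∅ e) ∧ ty n P + ty n Q = ty n D := by
  subst hP
  subst hQ
  refine ⟨SplA_pre hD hc' h1 h2, SplA_preQ hD hc' h1 h2, SplA_val hc h1 h2, ?_⟩
  have h3 : ty n (D.filter fun x => c < x ∧ x < c') = 0 := by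
    unfold ty
    rw [if_neg]
    intro h
    have h4 := (Finset.mem_filter.1 h).2
    omega
  rw [h3, SplA_ty hc' h2, add_zero]

end KWh
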