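import Pool.Agent.KWh.TrDef

set_option autoImplicit false

/-!
PACKAGE KWh-TRA. Adjacency in the wheel.
-/

namespace KWh

variable {n : ℕ} [NeZero n] {S : Finset (Fin n × Bool)}

/-- PROOF. `Fin.ext_iff`, `Fin.val_add`, `Fin.val_one'`: `i.val + 1` is less than `n` or equal to `n`. -/
theorem val_succ (hn : 3 ≤ n) (i : Fin n) :
    (i + 1).val = if i.val + 1 = n then 0 else i.val + 1 := by
  have hi := i.isLt
  rw [Fin.val_add, Fin.val_one', Nat.mod_eq_of_lt (show 1 < n by omega)]
  split_ifs with h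
  · rw [h, Nat.mod_self]
  · exact Nat.mod_eq_of_lt (by omega)

private theorem succ_ne_TrA (hn : 3 ≤ n) (i : Fin n) : i + 1 ≠ i := by
  intro h
  have h1 := congrArg Fin.val h
  rw [val_succ hn] at h1
  have hi := i.isLt
  split_ifs at h1 with h2 <;> omega

private theorem succ_succ_ne_TrA (hn : 3 ≤ n) (i : Fin n) : i + 1 + 1 ≠ i := by
  intro h
  have h1 := congrArg Fin.val h
  rw [val_succ hn, val_succ hn] at h1
  have hi := i.isLt
  split_ifs at h1 with h2 h3 <;> omega

private theorem succ_inj_TrA (hn : 3 ≤ n) {i j : Fin n} (h : i + 1 = j + 1) : i = j := by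
  have h1 := congrArg Fin.val h
  rw [val_succ hn, val_succ hn] at h1
  have hi := i.isLt
  have hj := j.isLt
  apply Fin.ext
  split_ifs at h1 with h2 h3 <;> omega

private theorem edg_true_TrA (i : Fin n) : edg n (i, true) = s(none, some i) := rfl

private theorem edg_false_TrA (i : Fin n) : edg n (i, false) = s(some i, some (i + 1)) := rfl

private theorem edg_inj_TrA (hn : 3 ≤ n) : Function.Injective (edg n) := by
  rintro ⟨i, b⟩ ⟨j, c⟩ h
  cases b <;> cases c
  · rw [edg_false_TrA, edg_false_TrA, Sym2.eq_iff] at h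
    rcases h with ⟨h1, -⟩ | ⟨h1, h2⟩
    · rw [Option.some.inj h1]
    · exfalso
      have h3 := Option.some.inj h1
      have h4 := Option.some.inj h2
      rw [h3] at h4
      exact succ_succ_ne_TrA hn j h4
  · rw [edg_false_TrA, edg_true_TrA, Sym2.eq_iff] at h
    rcases h with ⟨h1, -⟩ | ⟨-, h2⟩
    · exact absurd h1 (by simp)
    · exact absurd h2 (by simp)
  · rw [edg_false_TrA, edg_true_TrA, Sym2.eq_iff] at h
    rcases h with ⟨h1, -⟩ | ⟨h1, -⟩
    · exact absurd h1 (by simp)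
    · exact absurd h1 (by simp)
  · rw [edg_true_TrA, edg_true_TrA, Sym2.eq_iff] at h
    rcases h with ⟨-, h2⟩ | ⟨h1, -⟩
    · rw [Option.some.inj h2]
    · exact absurd h1 (by simp)

/-- PROOF. `SimpleGraph.fromEdgeSet_adj`, `Sym2.eq_iff`. -/
theorem adj_hub (hn : 3 ≤ n) {i : Fin n} : (gr n S).Adj none (some i) ↔ (i, true) ∈ S := by
  unfold gr
  rw [SimpleGraph.fromEdgeSet_adj, Set.mem_ofPred_eq, ← edg_true_TrA]
  constructor
  · rintro ⟨⟨e, he, h⟩, -⟩
    rwa [← edg_inj_TrA hn h]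
  · intro h
    exact ⟨⟨_, h, rfl⟩, by simp⟩

/-- PROOF. As `adj_hub`; `i + 1 ≠ i` because `n ≥ 2`. -/
theorem adj_rim (hn : 3 ≤ n) {i j : Fin n} : (gr n S).Adj (some i) (some j) ↔
    (j = i + 1 ∧ (i, false) ∈ S) ∨ (i = j + 1 ∧ (j, false) ∈ S) := by
  unfold gr
  rw [SimpleGraph.fromEdgeSet_adj, Set.mem_ofPred_eq]
  constructor
  · rintro ⟨⟨⟨k, b⟩, he, h⟩, -⟩
    cases b
    · rw [edg_false_TrA, Sym2.eq_iff] at h
      rcases h with ⟨h1, h2⟩ | ⟨h1, h2⟩
      · have h3 := Option.some.inj h1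
        have h4 := Option.some.inj h2
        subst h3
        exact Or.inl ⟨h4.symm, he⟩
      · have h3 := Option.some.inj h1
        have h4 := Option.some.inj h2
        subst h3
        exact Or.inr ⟨h4.symm, he⟩
    · rw [edg_true_TrA, Sym2.eq_iff] at h
      rcases h with ⟨h1, -⟩ | ⟨h1, -⟩ <;> exact absurd h1 (by simp)
  · rintro (⟨rfl, h⟩ | ⟨rfl, h⟩)
    · refine ⟨⟨_, h, rfl⟩, fun h1 => ?_⟩
      exact succ_ne_TrA hn i (Option.some.inj h1).symm
    · refine ⟨⟨_, h, ?_⟩, fun h1 => ?_⟩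
      · rw [edg_false_TrA, Sym2.eq_swap]
      · exact succ_ne_TrA hn j (Option.some.inj h1)

/-- PROOF. `edg n` is injective (`i + 1 + 1 ≠ i` because `n ≥ 3`) and has no loop as a value, so the
edge set is the image of `S` (`SimpleGraph.edgeSet_fromEdgeSet`). -/
theorem card_edge (hn : 3 ≤ n) (S : Finset (Fin n × Bool)) :
    Nat.card (gr n S).edgeSet = S.card := by
  have h1 : (gr n S).edgeSet = edg n '' (S : Set (Fin n × Bool)) := by
    unfold gr
    rw [SimpleGraph.edgeSet_fromEdgeSet]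
    ext x
    rw [Set.mem_sdiff, Set.mem_ofPred_eq, Set.mem_image]
    constructor
    · rintro ⟨h, -⟩
      exact h
    · rintro ⟨⟨k, b⟩, he, rfl⟩
      refine ⟨⟨_, he, rfl⟩, ?_⟩
      cases b
      · rw [edg_false_TrA]
        intro h
        have h2 : some k = some (k + 1) := h
        exact succ_ne_TrA hn k (Option.some.inj h2).symm
      · rw [edg_true_TrA]
        intro h
        have h2 : none = some k := h
        exact absurd h2 (by simp)
  rw [h1, Nat.card_image_of_injective (edg_inj_TrA hn)]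
  simp

end KWh
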