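import Pool.Agent.KWh.TrA

set_option autoImplicit false

/-!
PACKAGE KWh-TRB. Words give trees.
-/

namespace KWh

variable {n : ℕ} [NeZero n] {T : Finset ℕ}

/-- the rim vertex of a number -/
private def ix_TrB (n : ℕ) [NeZero n] (i : ℕ) : Fin n :=
  ⟨i % n, Nat.mod_lt _ (Nat.pos_of_neZero n)⟩

private theorem ix_succ_TrB (hn : 3 ≤ n) (i : ℕ) : ix_TrB n (i + 1) = ix_TrB n i + 1 := by
  apply Fin.ext
  rw [val_succ hn]
  unfold ix_TrB
  have h1 : i % n < n := Nat.mod_lt _ (by omega)
  split_ifs with h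
  · change (i + 1) % n = 0
    have h' : i % n + 1 = n := h
    rw [Nat.add_mod, Nat.mod_eq_of_lt (show 1 < n by omega), h', Nat.mod_self]
  · change (i + 1) % n = i % n + 1
    have h' : i % n + 1 ≠ n := h
    rw [Nat.add_mod, Nat.mod_eq_of_lt (show 1 < n by omega)]
    exact Nat.mod_eq_of_lt (by omega)

private theorem ix_val_TrB {i : ℕ} (hi : i < n) : (ix_TrB n i).val = i := Nat.mod_eq_of_lt hi

private theorem spoke_TrB (hn : 3 ≤ n) {i : ℕ} (hi : i < n) (h1 : 2 * i ∉ T)
    (h2 : 2 * i + 1 ∈ T) : (gr n (bs n T)).Adj none (some (ix_TrB n i)) := by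
  rw [adj_hub hn]
  refine Finset.mem_filter.2 ⟨Finset.mem_univ _, ?_⟩
  unfold val
  rw [if_pos rfl, ix_val_TrB hi, if_pos ⟨h1, h2⟩]

private theorem rim_TrB (hn : 3 ≤ n) {i : ℕ} (hi : i < n)
    (h : ¬ (2 * i + 1 ∈ T ∧ 2 * i + 2 ∉ T)) :
    (gr n (bs n T)).Adj (some (ix_TrB n i)) (some (ix_TrB n (i + 1))) := by
  rw [adj_rim hn]
  left
  refine ⟨ix_succ_TrB hn i, Finset.mem_filter.2 ⟨Finset.mem_univ _, ?_⟩⟩
  unfold val
  rw [if_neg (by simp), ix_val_TrB hi, if_neg h]

/-- PROOF. `IsTree` iff connected and `n` edges (`SimpleGraph.isTree_iff_connected_and_card`,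
`card_edge`, `card_bs`, `n + 1` vertices).  Connected: let `R i` (`i ≤ n`) be: `none` and
`some (i mod n)` are connected; `R 0 ↔ R n`.
(a) `i < n`, `2 i ∉ T`, `2 i + 1 ∈ T`: `R i` (the spoke `i`).
(b) `i < n`, `2 i + 1 ∉ T`: the rim edge `i` is present and `2 i + 2 ∉ T` (`down`), so
`R (i + 1) → R i`.
(c) `i < n`, `2 i + 2 ∈ T`: the rim edge `i` is present and `2 i + 1 ∈ T` (`down`), so
`R i → R (i + 1)`.
(1) `2 i ∉ T` and some cell `x > 2 i` is in `T`: `R i` (induction on `n - i`).
(2) `2 i ∈ T` and some cell `x < 2 i` is not in `T`: `R i` (induction on `i`).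
(3) `2 i ∉ T` and no cell `x > 2 i` is in `T`: `0 ∉ T` (`cyc`), some cell is in `T`, so `R 0` by (1),
`R n`, and `R i` with (b).
(4) `2 i ∈ T` and all cells `x < 2 i` are in `T`: `2 n ∈ T` (`cyc`), `R n` by (2), `R 0`, and `R i`
with (c). -/
theorem tree_of_word (hn : 3 ≤ n) (hT : IsWord n T) : (gr n (bs n T)).IsTree := by
  obtain ⟨R, hR⟩ : ∃ R : ℕ → Prop, ∀ i, R i ↔
      (gr n (bs n T)).Reachable none (some (ix_TrB n i)) := ⟨_, fun i => Iff.rfl⟩
  have hc : R 0 ↔ R n := by
    rw [hR, hR]
    have h1 : ix_TrB n n = ix_TrB n 0 := by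
      apply Fin.ext
      change n % n = 0 % n
      rw [Nat.mod_self, Nat.zero_mod]
    rw [h1]
  have ha : ∀ i < n, 2 * i ∉ T → 2 * i + 1 ∈ T → R i := fun i hi h1 h2 =>
    (hR i).2 (spoke_TrB hn hi h1 h2).reachable
  have hb : ∀ i < n, ¬ (2 * i + 1 ∈ T ∧ 2 * i + 2 ∉ T) → (R i ↔ R (i + 1)) := by
    intro i hi h
    have h1 := (rim_TrB hn hi h).reachable
    rw [hR, hR]
    exact ⟨fun h2 => h2.trans h1, fun h2 => h2.trans h1.symm⟩
  have hd : ∀ i < n, 2 * i + 2 ∈ T → 2 * i + 1 ∈ T := fun i hi h =>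
    hT.down (2 * i + 1) (by omega) (odd_two_mul_add_one i) h
  have h1 : ∀ m i, n - i = m → 2 * i ∉ T → (∃ x ∈ T, 2 * i < x) → R i := by
    intro m
    induction m with
    | zero =>
      rintro i hi h2 ⟨x, hx, h3⟩
      have h4 := hT.le x hx
      omega
    | succ m ih =>
      rintro i hi h2 ⟨x, hx, h3⟩
      have h4 := hT.le x hx
      by_cases h5 : 2 * i + 1 ∈ T
      · exact ha i (by omega) h2 h5
      · have h6 : 2 * i + 2 ∉ T := fun h => h5 (hd i (by omega) h)
        refine (hb i (by omega) fun h => h5 h.1).2 (ih (i + 1) (by omega) h6 ⟨x, hx, ?_⟩)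
        have h7 : x ≠ 2 * i + 1 := fun h => h5 (h ▸ hx)
        have h8 : x ≠ 2 * i + 2 := fun h => h6 (h ▸ hx)
        omega
  have h2 : ∀ i ≤ n, 2 * i ∈ T → (∃ x < 2 * i, x ∉ T) → R i := by
    intro i
    induction i with
    | zero =>
      rintro _ _ ⟨x, hx, _⟩
      omega
    | succ j ih =>
      rintro hi h3 ⟨x, hx, h4⟩
      have h3' : 2 * j + 2 ∈ T := h3
      have h5 := hd j (by omega) h3'
      refine (hb j (by omega) fun h => h.2 h3').1 ?_
      by_cases h6 : 2 * j ∈ T
      · refine ih (by omega) h6 ⟨x, ?_, h4⟩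
        have h7 : x ≠ 2 * j + 1 := fun h => h4 (h ▸ h5)
        have h8 : x ≠ 2 * j := fun h => h4 (h ▸ h6)
        omega
      · exact ha j (by omega) h6 h5
  have hcyc := hT.cyc
  have h3 : ∀ i ≤ n, R i := by
    intro i hi
    by_cases h3 : 2 * i ∈ T
    · by_cases h4 : ∃ x < 2 * i, x ∉ T
      · exact h2 i hi h3 h4
      · push Not at h4
        have h5 : 0 ∈ T := by
          rcases Nat.eq_zero_or_pos i with h | h
          · subst h
            exact h3
          · exact h4 0 (by omega)
        have h6 := hcyc.1 h5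
        obtain ⟨x, hx, hx'⟩ := hT.pr
        have h7 : x ≠ 2 * n := fun h => hx' (h ▸ h6)
        have h8 : R 0 := hc.2 (h2 n le_rfl h6 ⟨x, by omega, hx'⟩)
        have h9 : ∀ j ≤ i, R j := by
          intro j
          induction j with
          | zero => exact fun _ => h8
          | succ j ih =>
            intro hj
            have h10 : 2 * j + 2 ∈ T := by
              by_cases h : 2 * j + 2 = 2 * i
              · rw [h]
                exact h3
              · exact h4 _ (by omega)
            exact (hb j (by omega) fun h => h.2 h10).1 (ih (by omega))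
        exact h9 i le_rfl
    · by_cases h4 : ∃ x ∈ T, 2 * i < x
      · exact h1 _ i rfl h3 h4
      · push Not at h4
        have h5 : 2 * n ∉ T := by
          intro h
          have h6 := h4 _ h
          have h7 : i = n := by omega
          rw [h7] at h3
          exact h3 h
        have h6 : 0 ∉ T := fun h => h5 (hcyc.1 h)
        obtain ⟨x, hx, hx'⟩ := hT.ne
        have h7 : x ≠ 0 := fun h => h6 (h ▸ hx')
        have h8 : R n := hc.1 (h1 _ 0 rfl h6 ⟨x, hx', by omega⟩)
        have h9 : ∀ m ≤ n - i, R (n - m) := by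
          intro m
          induction m with
          | zero => exact fun _ => h8
          | succ m ih =>
            intro hm
            have h10 := ih (by omega)
            have h11 : n - m = n - (m + 1) + 1 := by omega
            rw [h11] at h10
            refine (hb _ (by omega) fun h => ?_).2 h10
            have h12 := h4 _ h.1
            omega
        have h10 := h9 (n - i) le_rfl
        have h11 : n - (n - i) = i := by omega
        rwa [h11] at h10
  have h4 : ∀ x : Option (Fin n), (gr n (bs n T)).Reachable none x := by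
    intro x
    rcases x with _ | i
    · exact SimpleGraph.Reachable.refl _
    · have h5 := (hR i.val).1 (h3 i.val i.2.le)
      have h6 : ix_TrB n i.val = i := Fin.ext (ix_val_TrB i.2)
      rwa [h6] at h5
  rw [SimpleGraph.isTree_iff_connected_and_card, card_edge hn, card_bs hT]
  refine ⟨⟨fun x y => (h4 x).symm.trans (h4 y)⟩, ?_⟩
  rw [Nat.card_eq_fintype_card, Fintype.card_option, Fintype.card_fin]

end KWh
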