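import Pool.Agent.KWh.Emb

set_option autoImplicit false

/-!
The wheel with `n ≥ 3` spokes: the vertex `none` is the hub, `some i` are the rim vertices, the edge
`(i, true)` is the spoke at `some i`, the edge `(i, false)` joins `some i` and `some (i + 1)`.
-/

namespace KWh

/-- The ends of an edge of the wheel. -/
def edg (n : ℕ) [NeZero n] (e : Fin n × Bool) : Sym2 (Option (Fin n)) :=
  if e.2 then s(none, some e.1) else s(some e.1, some (e.1 + 1))

/-- The graph with the vertices of the wheel and the edges in `S`. -/
def gr (n : ℕ) [NeZero n] (S : Finset (Fin n × Bool)) : SimpleGraph (Option (Fin n)) :=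
  SimpleGraph.fromEdgeSet {x | ∃ e ∈ S, edg n e = x}

end KWh
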