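import Pool.Agent.KWh.TrA

set_option autoImplicit false

/-!
PACKAGE KWh-TRP. Parents in a spanning tree of the wheel.
-/

namespace KWh

variable {n : ℕ} [NeZero n] {S : Finset (Fin n × Bool)}

/-- PROOF. The parent `p i` of the rim vertex `some i`: a neighbour whose distance to the hub is
smaller by one (the second vertex of a shortest walk to `none`,
`SimpleGraph.Connected.exists_walk_length_eq_dist`).  The `n` edges `{some i, p i}` are different
(distances), and there are only `n` edges (`SimpleGraph.isTree_iff_connected_and_card`), so every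
edge is one of them. -/
theorem exists_parent (hn : 3 ≤ n) (h : (gr n S).IsTree) :
    ∃ p : Fin n → Option (Fin n), ∃ d : Option (Fin n) → ℕ, (∀ i, (gr n S).Adj (some i) (p i)) ∧
      (∀ i, d (p i) < d (some i)) ∧
      (∀ x y, (gr n S).Adj x y → (∃ i, x = some i ∧ y = p i) ∨ (∃ i, y = some i ∧ x = p i)) := by
  classical
  have hc : (gr n S).Connected := h.connected
  have hcard : Nat.card (gr n S).edgeSet + 1 = Nat.card (Option (Fin n)) :=
    (SimpleGraph.isTree_iff_connected_and_card.1 h).2
  have hpar : ∀ i : Fin n, ∃ q : Option (Fin n), (gr n S).Adj (some i) q ∧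
      (gr n S).dist q none < (gr n S).dist (some i) none := by
    intro i
    obtain ⟨w, hw⟩ := hc.exists_walk_length_eq_dist (some i) none
    cases w with
    | @cons _ q _ hadj w' =>
      refine ⟨q, hadj, ?_⟩
      rw [← hw, SimpleGraph.Walk.length_cons]
      exact Nat.lt_succ_of_le (SimpleGraph.dist_le w')
  choose p hadj hlt using hpar
  refine ⟨p, fun x => (gr n S).dist x none, hadj, hlt, ?_⟩
  let f : Fin n → (gr n S).edgeSet := fun i => ⟨s(some i, p i), (gr n S).mem_edgeSet.2 (hadj i)⟩
  have hinj : Function.Injective f := by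
    intro i j hij
    have h1 : s(some i, p i) = s(some j, p j) := congrArg Subtype.val hij
    rw [Sym2.eq_iff] at h1
    rcases h1 with ⟨h1, -⟩ | ⟨h1, h2⟩
    · exact Option.some_injective _ h1
    · exfalso
      have h3 := hlt i
      have h4 := hlt j
      rw [h2] at h3
      rw [← h1] at h4
      exact absurd (lt_trans h3 h4) (lt_irrefl _)
  have hn' : Nat.card (gr n S).edgeSet = n := by
    rw [Finite.card_option, Nat.card_fin] at hcard
    omega
  have hfin : Finite (gr n S).edgeSet := Set.toFinite _
  have : Fintype (gr n S).edgeSet := Fintype.ofFinite _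
  have hbij : Function.Bijective f := by
    rw [Fintype.bijective_iff_injective_and_card]
    refine ⟨hinj, ?_⟩
    rw [Fintype.card_fin, ← Nat.card_eq_fintype_card, hn']
  intro x y hxy
  obtain ⟨i, hi⟩ := hbij.2 ⟨s(x, y), (gr n S).mem_edgeSet.2 hxy⟩
  have h1 : s(some i, p i) = s(x, y) := congrArg Subtype.val hi
  rw [Sym2.eq_iff] at h1
  rcases h1 with ⟨h1, h2⟩ | ⟨h1, h2⟩
  · exact Or.inl ⟨i, h1.symm, h2.symm⟩
  · exact Or.inr ⟨i, h1.symm, h2.symm⟩

end KWh
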