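import Pool.Agent.KWh.Defs

set_option autoImplicit false

/-!
PACKAGE KWh-TY. The first cell of the final block.
-/

namespace KWh

variable {n : ℕ} {T A B : Finset ℕ}

theorem ty_zero (h : 2 * n ∉ T) : ty n T = 0 := by
  unfold ty
  rw [if_neg h]

theorem ty_pos (h : 2 * n ∈ T) : 0 < ty n T := by
  unfold ty
  rw [if_pos h]
  exact Nat.succ_pos _

theorem mem_of_ty_pos (h : 0 < ty n T) : 2 * n ∈ T := by
  by_contra h1
  rw [ty_zero h1] at h
  exact lt_irrefl _ h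

/-- PROOF. `2 * n ∈ T` (because `2 * n = t + 1 + k` is `> t`); the filtered range has the maximum `t`:
`t` is in it and every `u > t`, `u < 2 * n` is in `T`. -/
theorem ty_eq {t : ℕ} (ht : t < 2 * n) (h1 : t ∉ T) (h2 : ∀ u, t < u → u ≤ 2 * n → u ∈ T) :
    ty n T = t + 1 := by
  unfold ty
  rw [if_pos (h2 (2 * n) ht le_rfl)]
  congr 1
  refine le_antisymm (Finset.sup_le fun u hu => ?_) ?_
  · rw [Finset.mem_filter, Finset.mem_range] at hu
    show u ≤ t
    by_contra h3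
    exact hu.2 (h2 u (by omega) (by omega))
  · exact Finset.le_sup (f := id) (Finset.mem_filter.2 ⟨Finset.mem_range.2 ht, h1⟩)

/-- the last missing cell -/
private theorem ty_last {x : ℕ} (h : 2 * n ∈ T) (hx : x < 2 * n) (hxT : x ∉ T) :
    ∃ t, x ≤ t ∧ t < 2 * n ∧ t ∉ T ∧ ∀ u, t < u → u ≤ 2 * n → u ∈ T := by
  obtain ⟨t, ht, hmax⟩ := ((Finset.range (2 * n)).filter (· ∉ T)).exists_max_image id
    ⟨x, Finset.mem_filter.2 ⟨Finset.mem_range.2 hx, hxT⟩⟩
  rw [Finset.mem_filter, Finset.mem_range] at ht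
  refine ⟨t, hmax x (Finset.mem_filter.2 ⟨Finset.mem_range.2 hx, hxT⟩), ht.1, ht.2,
    fun u hu hu' => ?_⟩
  by_contra h3
  have h4 : u ≠ 2 * n := by
    rintro rfl
    exact h3 h
  have h5 : u ≤ t := hmax u (Finset.mem_filter.2 ⟨Finset.mem_range.2 (by omega), h3⟩)
  omega

/-- PROOF. `2 * n ∈ T`. There is a cell `u ∉ T`, `u ≤ 2 * n` (`hT.pr`), `u ≠ 2 * n`, so the filtered
range is not empty; let `t` be its maximum. `ty n T = t + 1`. `t` is even: otherwise `hT.down t`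
and `t + 1 ∈ T` give `t ∈ T`. -/
theorem ty_spec (hT : IsWord n T) (h : 0 < ty n T) : ∃ t, Even t ∧ t < 2 * n ∧ ty n T = t + 1 ∧
    t ∉ T ∧ ∀ u, t < u → u ≤ 2 * n → u ∈ T := by
  have h1 := mem_of_ty_pos h
  obtain ⟨x, hx, hxT⟩ := hT.pr
  have h2 : x ≠ 2 * n := by
    rintro rfl
    exact hxT h1
  obtain ⟨t, -, ht, htT, hu⟩ := ty_last h1 (by omega) hxT
  refine ⟨t, ?_, ht, ty_eq ht htT hu, htT, hu⟩
  by_contra h3
  exact htT (hT.down t ht (Nat.not_even_iff_odd.1 h3) (hu (t + 1) (by omega) (by omega)))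

/-- PROOF. `ty_spec`, `ty_zero`. -/
theorem ty_lt (hT : IsWord n T) : ty n T < 2 * n + 1 := by
  rcases Nat.eq_zero_or_pos (ty n T) with h | h
  · omega
  · obtain ⟨t, -, ht, h1, -⟩ := ty_spec hT h
    omega

/-- PROOF. If `2 * n ∉ A` both are `0`. Otherwise let `t` be the last cell of `A` which is missing
(the maximum of the filtered range, it contains `x`, as `x ≠ 2 * n`); `t ≥ x ≥ v`; `ty_eq` for `A`
and for `B`. -/
theorem ty_congr {v x : ℕ} (h : ∀ u, v ≤ u → u ≤ 2 * n → (u ∈ A ↔ u ∈ B)) (hx : v ≤ x)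
    (hx' : x ≤ 2 * n) (hA : x ∉ A) : ty n A = ty n B := by
  by_cases h1 : 2 * n ∈ A
  · have h2 : x ≠ 2 * n := by
      rintro rfl
      exact hA h1
    obtain ⟨t, hxt, ht, htA, hu⟩ := ty_last h1 (by omega) hA
    rw [ty_eq ht htA hu, ty_eq ht (fun h3 => htA ((h t (by omega) (by omega)).2 h3))
      fun u h3 h4 => (h u (by omega) h4).1 (hu u h3 h4)]
  · rw [ty_zero h1, ty_zero fun h2 => h1 ((h (2 * n) (by omega) le_rfl).2 h2)]

/-- PROOF. If `2 * n ∈ T` and the cells `≥ v` are all in `T`, then the last missing cell is `< v`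
(`ty_spec`). -/
theorem ty_le_of {v : ℕ} (hT : IsWord n T) (h : ∀ u, v ≤ u → u ≤ 2 * n → u ∈ T) :
    ty n T ≤ v := by
  rcases Nat.eq_zero_or_pos (ty n T) with h1 | h1
  · omega
  · obtain ⟨t, -, ht, h2, h3, -⟩ := ty_spec hT h1
    by_contra h4
    exact h3 (h t (by omega) (by omega))

end KWh
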